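import Pool.Agent.MP_e5b4ec_an.Na.St

/-! Calculus of register programs. -/

set_option autoImplicit false

open Set Filter Topology
open scoped ContDiff

namespace Pool.Agent.MP_e5b4ec_an.Na

open Mid

variable (K : ℕ → ℝ)

theorem cd_Calc {E : ℝ × (Fin 9 → ℝ) → ℕ → ℝ} (hc : ∀ i, ContDiff ℝ ω fun w => E w i) (e : Ex)
    (he : pt e = true) : ContDiff ℝ ω fun w => e.ev K (E w) := by
  induction e with
  | v i => exact hc i
  | k i => exact contDiff_const
  | q a b => exact contDiff_const
  | pi => exact contDiff_const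
  | add a b iha ihb => rw [pt, Bool.and_eq_true] at he; exact (iha he.1).add (ihb he.2)
  | sub a b iha ihb => rw [pt, Bool.and_eq_true] at he; exact (iha he.1).sub (ihb he.2)
  | mul a b iha ihb => rw [pt, Bool.and_eq_true] at he; exact (iha he.1).mul (ihb he.2)
  | inv a _ => simp [pt] at he
  | sin a ih => rw [pt] at he; exact (ih he).sin
  | cos a ih => rw [pt] at he; exact (ih he).cos

theorem der_Calc {E : ℝ → ℕ → ℝ} {D : ℕ → ℝ} (hc : ∀ i, HasDerivAt (fun t => E t i) (D i) 0)
    (e : Ex) (he : pt e = true) : HasDerivAt (fun t => e.ev K (E t)) (dv K (E 0) D e) 0 := by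
  induction e with
  | v i => exact hc i
  | k i => exact hasDerivAt_const _ _
  | q a b => exact hasDerivAt_const _ _
  | pi => exact hasDerivAt_const _ _
  | add a b iha ihb => rw [pt, Bool.and_eq_true] at he; exact (iha he.1).add (ihb he.2)
  | sub a b iha ihb => rw [pt, Bool.and_eq_true] at he; exact (iha he.1).sub (ihb he.2)
  | mul a b iha ihb => rw [pt, Bool.and_eq_true] at he; exact (iha he.1).mul (ihb he.2)
  | inv a _ => simp [pt] at he
  | sin a ih => rw [pt] at he; exact (ih he).sin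
  | cos a ih => rw [pt] at he; exact (ih he).cos

theorem evK_Calc (K' E : ℕ → ℝ) (e : Ex) (he : pt e = true) : e.ev K E = e.ev K' E := by
  induction e with
  | v i => rfl
  | k i => simp [pt] at he
  | q a b => rfl
  | pi => rfl
  | add a b iha ihb =>
    rw [pt, Bool.and_eq_true] at he; rw [Ex.ev, Ex.ev, iha he.1, ihb he.2]
  | sub a b iha ihb =>
    rw [pt, Bool.and_eq_true] at he; rw [Ex.ev, Ex.ev, iha he.1, ihb he.2]
  | mul a b iha ihb =>
    rw [pt, Bool.and_eq_true] at he; rw [Ex.ev, Ex.ev, iha he.1, ihb he.2]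
  | inv a _ => simp [pt] at he
  | sin a ih => rw [pt] at he; rw [Ex.ev, Ex.ev, ih he]
  | cos a ih => rw [pt] at he; rw [Ex.ev, Ex.ev, ih he]

theorem dv_congr_Calc {E E' D D' : ℕ → ℝ} {n : ℕ} (h : ∀ i, i < n → E i = E' i)
    (h' : ∀ i, i < n → D i = D' i) (e : Ex) (he : e.lt n = true) :
    dv K E D e = dv K E' D' e := by
  induction e with
  | v i => exact h' i (by simpa [Ex.lt, Nat.blt_eq] using he)
  | k i => rfl
  | q a b => rfl
  | pi => rfl
  | add a b iha ihb =>
    rw [Ex.lt, Bool.and_eq_true] at he; rw [dv, dv, iha he.1, ihb he.2]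
  | sub a b iha ihb =>
    rw [Ex.lt, Bool.and_eq_true] at he; rw [dv, dv, iha he.1, ihb he.2]
  | mul a b iha ihb =>
    rw [Ex.lt, Bool.and_eq_true] at he
    rw [dv, dv, iha he.1, ihb he.2, ev_congr_One K h a he.1, ev_congr_One K h b he.2]
  | inv a _ => rfl
  | sin a ih => rw [Ex.lt] at he; rw [dv, dv, ih he, ev_congr_One K h a he]
  | cos a ih => rw [Ex.lt] at he; rw [dv, dv, ih he, ev_congr_One K h a he]

theorem run_cd_Calc : ∀ (ds : List Ex) (n : ℕ) (E : ℝ × (Fin 9 → ℝ) → ℕ → ℝ), ds.all pt = true →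
    (∀ i, ContDiff ℝ ω fun w => E w i) → ∀ i, ContDiff ℝ ω fun w => runR K ds n (E w) i
  | [], _, _, _, hc => hc
  | e :: es, n, E, h, hc => by
    rw [List.all_cons, Bool.and_eq_true] at h
    refine run_cd_Calc es (n + 1) (fun a => Function.update (E a) n (e.ev K (E a))) h.2
      fun i => ?_
    by_cases hi : i = n
    · subst hi
      simp only [Function.update_self]
      exact cd_Calc K hc e h.1
    · simp only [Function.update_of_ne hi]
      exact hc i

theorem run_der_Calc : ∀ (ds : List Ex) (n : ℕ) (E : ℝ → ℕ → ℝ) (D0 : ℕ → ℝ), ds.all pt = true →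
    ltAll n ds = true → (∀ i, HasDerivAt (fun t => E t i) (D0 i) 0) →
    ∃ D : ℕ → ℝ, (∀ i, HasDerivAt (fun t => runR K ds n (E t) i) (D i) 0) ∧
      (∀ i, i < n → D i = D0 i) ∧ DDfs K (runR K ds n (E 0)) D n ds
  | [], _, _, D0, _, _, hc => ⟨D0, hc, fun _ _ => rfl, trivial⟩
  | e :: es, n, E, D0, h, hl, hc => by
    rw [List.all_cons, Bool.and_eq_true] at h
    rw [ltAll, Bool.and_eq_true] at hl
    obtain ⟨D, h1, h2, h3⟩ := run_der_Calc es (n + 1)
      (fun a => Function.update (E a) n (e.ev K (E a)))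
      (Function.update D0 n (dv K (E 0) D0 e)) h.2 hl.2 fun i => by
        by_cases hi : i = n
        · subst hi
          simp only [Function.update_self]
          exact der_Calc K hc e h.1
        · simp only [Function.update_of_ne hi]
          exact hc i
    have h4 : ∀ i, i < n → D i = D0 i := fun i hi => by
      rw [h2 i (by omega), Function.update_of_ne (by omega)]
    refine ⟨D, h1, h4, ?_, h3⟩
    rw [h2 n (by omega), Function.update_self]
    exact dv_congr_Calc K (fun i hi => (runR_lt K _ n _ i hi).symm)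
      (fun i hi => (h4 i hi).symm) e hl.1

theorem dfs_Calc (K' E : ℕ → ℝ) : ∀ (ds : List Ex) (n : ℕ), ds.all pt = true →
    Dfs K E n ds → Dfs K' E n ds
  | [], _, _, _ => trivial
  | e :: es, n, h, hd => by
    rw [List.all_cons, Bool.and_eq_true] at h
    exact ⟨hd.1.trans (evK_Calc K K' E e h.1), dfs_Calc K' E es (n + 1) h.2 hd.2⟩

theorem sCalc : SCalc := fun K ds n h =>
  ⟨fun E => run_cd_Calc K ds n E h, fun hl E D0 => run_der_Calc K ds n E D0 h hl,
    fun K' E => dfs_Calc K K' E ds n h⟩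

end Pool.Agent.MP_e5b4ec_an.Na
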