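import Pool.Agent.MP_e5b4ec_an.Na.St

set_option autoImplicit false

open Set Filter Topology
open scoped ContDiff

namespace Pool.Agent.MP_e5b4ec_an.Na

open Mid

/-- analytic local inverse of `w ↦ (w.1, G w)` -/
theorem ift_Cont {G : ℝ × (Fin 9 → ℝ) → Fin 9 → ℝ} (hG : ContDiff ℝ ω G) {m : ℝ} {z : Fin 9 → ℝ}
    (h0 : G (m, z) = 0)
    (hinj : ∀ u : Fin 9 → ℝ, HasDerivAt (fun t : ℝ => G (m, z + t • u)) 0 0 → u = 0) :
    ∃ Ψ : ℝ × (Fin 9 → ℝ) → ℝ × (Fin 9 → ℝ), AnalyticAt ℝ Ψ (m, 0) ∧ Ψ (m, 0) = (m, z) ∧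
      (∀ᶠ w in 𝓝 (m, z), Ψ (w.1, G w) = w) ∧ ∀ᶠ v in 𝓝 (m, 0), ((Ψ v).1, G (Ψ v)) = v := by
  have hd : HasFDerivAt G (fderiv ℝ G (m, z)) (m, z) :=
    (hG.differentiable (by simp) (m, z)).hasFDerivAt
  let L : (ℝ × (Fin 9 → ℝ)) →L[ℝ] ℝ × (Fin 9 → ℝ) :=
    (ContinuousLinearMap.fst ℝ ℝ (Fin 9 → ℝ)).prod (fderiv ℝ G (m, z))
  have hL : Function.Injective (L : (ℝ × (Fin 9 → ℝ)) →ₗ[ℝ] ℝ × (Fin 9 → ℝ)) := by
    rw [injective_iff_map_eq_zero]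
    rintro ⟨d, u⟩ h
    have h1 : d = 0 := congrArg Prod.fst h
    have h2 : fderiv ℝ G (m, z) (d, u) = 0 := congrArg Prod.snd h
    subst h1
    have h3 : HasDerivAt (fun t : ℝ => (m, z + t • u)) (0, u) 0 := by
      have h4 := ((hasDerivAt_id (0 : ℝ)).smul_const u).const_add z
      rw [one_smul] at h4
      exact (hasDerivAt_const (0 : ℝ) m).prodMk h4
    have h4 : HasFDerivAt G (fderiv ℝ G (m, z)) ((fun t : ℝ => (m, z + t • u)) 0) := by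
      simpa using hd
    have h5 := h4.comp_hasDerivAt 0 h3
    rw [h2] at h5
    rw [hinj u h5]
    rfl
  let e : (ℝ × (Fin 9 → ℝ)) ≃L[ℝ] ℝ × (Fin 9 → ℝ) :=
    (LinearEquiv.ofInjectiveEndo _ hL).toContinuousLinearEquiv
  have he : (e : (ℝ × (Fin 9 → ℝ)) →L[ℝ] ℝ × (Fin 9 → ℝ)) = L := by
    ext1 <;> rfl
  have hΦ : ContDiffAt ℝ ω (fun w : ℝ × (Fin 9 → ℝ) => (w.1, G w)) (m, z) :=
    (contDiff_fst.prodMk hG).contDiffAt
  have hΦ' : HasFDerivAt (fun w : ℝ × (Fin 9 → ℝ) => (w.1, G w))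
      (e : (ℝ × (Fin 9 → ℝ)) →L[ℝ] ℝ × (Fin 9 → ℝ)) (m, z) := by
    rw [he]
    exact hasFDerivAt_fst.prodMk hd
  have hn : (ω : WithTop ℕ∞) ≠ 0 := by simp
  have h1 := (hΦ.to_localInverse hΦ' hn).analyticAt
  have h2 := hΦ.localInverse_apply_image hΦ' hn
  have h3 := (hΦ.hasStrictFDerivAt' hΦ' hn).eventually_left_inverse
  have h4 := (hΦ.hasStrictFDerivAt' hΦ' hn).eventually_right_inverse
  simp only [h0] at h1 h2 h4
  exact ⟨hΦ.localInverse hΦ' hn, h1, h2, h3, h4⟩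

theorem loc_Cont {G : ℝ × (Fin 9 → ℝ) → Fin 9 → ℝ} {H : ℝ × (Fin 9 → ℝ) → ℝ} (hG : ContDiff ℝ ω G)
    {m : ℝ} (hH : ∀ z, AnalyticAt ℝ H (m, z))
    (hr : ∀ z : Fin 9 → ℝ, (∀ i, |z i| ≤ 1) → G (m, z) = 0 → (∀ i, |z i| < 1) ∧
      ∀ u : Fin 9 → ℝ, HasDerivAt (fun t : ℝ => G (m, z + t • u)) 0 0 → u = 0)
    (hf : ∃ᶠ M in 𝓝[≠] m, ∃ z : Fin 9 → ℝ, (∀ i, |z i| ≤ 1) ∧ G (M, z) = 0 ∧ H (M, z) = 0) :
    ∀ᶠ M in 𝓝 m, ∃ z : Fin 9 → ℝ, (∀ i, |z i| ≤ 1) ∧ G (M, z) = 0 ∧ H (M, z) = 0 := by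
  obtain ⟨M, hM, hP⟩ := exists_seq_forall_of_frequently hf
  choose z hz hGz hHz using hP
  have hb : ∀ n, z n ∈ Metric.closedBall (0 : Fin 9 → ℝ) 1 := fun n =>
    mem_closedBall_zero_iff.2 ((pi_norm_le_iff_of_nonneg zero_le_one).2 (hz n))
  obtain ⟨y, hy, φ, hφ, hl⟩ := (isCompact_closedBall (0 : Fin 9 → ℝ) 1).tendsto_subseq hb
  have hy1 : ∀ i, |y i| ≤ 1 :=
    (pi_norm_le_iff_of_nonneg zero_le_one).1 (mem_closedBall_zero_iff.1 hy)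
  have hMφ : Tendsto (fun n => M (φ n)) atTop (𝓝[≠] m) := hM.comp hφ.tendsto_atTop
  have hw : Tendsto (fun n => (M (φ n), z (φ n))) atTop (𝓝 (m, y)) :=
    (hMφ.mono_right nhdsWithin_le_nhds).prodMk_nhds hl
  have h0 : G (m, y) = 0 := by
    have h1 := (hG.continuous.tendsto (m, y)).comp hw
    have h2 : (G ∘ fun n => (M (φ n), z (φ n))) = fun _ => 0 := funext fun n => hGz (φ n)
    rw [h2] at h1
    exact (tendsto_nhds_unique tendsto_const_nhds h1).symm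
  obtain ⟨hy2, hinj⟩ := hr y hy1 h0
  obtain ⟨Ψ, a1, a2, a3, a4⟩ := ift_Cont hG h0 hinj
  have hι : AnalyticAt ℝ (fun x : ℝ => (x, (0 : Fin 9 → ℝ))) m :=
    analyticAt_id.prod analyticAt_const
  have hc : AnalyticAt ℝ (fun x : ℝ => Ψ (x, 0)) m :=
    AnalyticAt.comp (g := Ψ) (f := fun x : ℝ => (x, (0 : Fin 9 → ℝ))) a1 hι
  have hA : AnalyticAt ℝ (fun x : ℝ => H (Ψ (x, 0))) m :=
    AnalyticAt.comp (g := H) (f := fun x : ℝ => Ψ (x, 0)) (by rw [a2]; exact hH y) hc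
  have hz0 : ∀ᶠ x in 𝓝 m, H (Ψ (x, 0)) = 0 := by
    refine hA.frequently_zero_iff_eventually_zero.1 (hMφ.frequently (Eventually.frequently ?_))
    filter_upwards [hw.eventually a3] with n hn
    rw [hGz] at hn
    rw [hn]
    exact hHz _
  have hin : ∀ᶠ x in 𝓝 m, ∀ i, |(Ψ (x, 0)).2 i| < 1 := by
    refine eventually_all.2 fun i => ?_
    have h1 : ContinuousAt (fun x : ℝ => |(Ψ (x, 0)).2 i|) m :=
      ((continuous_apply i).continuousAt.comp hc.continuousAt.snd).abs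
    refine h1.eventually_lt continuousAt_const ?_
    rw [a2]
    exact hy2 i
  filter_upwards [hz0, hin, hι.continuousAt.eventually a4] with x h1 h2 h3
  have h4 : (Ψ (x, 0)).1 = x := congrArg Prod.fst h3
  have h5 : G (Ψ (x, 0)) = 0 := congrArg Prod.snd h3
  have h6 : (x, (Ψ (x, 0)).2) = Ψ (x, 0) := Prod.ext h4.symm rfl
  exact ⟨(Ψ (x, 0)).2, fun i => (h2 i).le, by rw [h6, h5], by rw [h6, h1]⟩

theorem sCont : SCont := by
  intro a b G H hab hG hH hr hf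
  have hU : IsOpen {m : ℝ | ∀ᶠ M in 𝓝 m,
      ∃ z : Fin 9 → ℝ, (∀ i, |z i| ≤ 1) ∧ G (M, z) = 0 ∧ H (M, z) = 0} :=
    isOpen_setOfPred_eventually_nhds
  have hb : b ∈ Icc a b := right_mem_Icc.2 hab
  have h := isPreconnected_Icc.subset_of_closure_inter_subset hU
    ⟨b, hb, loc_Cont hG (hH b hb) (hr b hb)
      (hf.filter_mono (nhdsWithin_mono b fun x hx => ne_of_gt hx))⟩ (by
      rintro m ⟨h1, h2⟩
      by_contra c
      refine c (loc_Cont hG (hH m h2) (hr m h2) (frequently_nhdsWithin_iff.2 ?_))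
      refine (mem_closure_iff_frequently.1 h1).mono fun x hx => ⟨hx.self_of_nhds, ?_⟩
      rintro rfl
      exact c hx)
  exact (h (left_mem_Icc.2 hab)).self_of_nhds

end Pool.Agent.MP_e5b4ec_an.Na
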