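import Pool.Agent.MP_e5b4ec_an.Mid.OneA

/-! Continuation of the system of the middle range: definitions and statements. -/

set_option autoImplicit false

open Set Filter Topology
open scoped ContDiff

namespace Pool.Agent.MP_e5b4ec_an.Na

open Mid

/-- expressions without inverses and without certificate constants -/
def pt : Ex → Bool
  | .k _ => false
  | .inv _ => false
  | .add a b => pt a && pt b
  | .sub a b => pt a && pt b
  | .mul a b => pt a && pt b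
  | .sin a => pt a
  | .cos a => pt a
  | _ => true

/-- the derivative of an expression, given the derivatives `D` of the registers -/
noncomputable def dv (K E D : ℕ → ℝ) : Ex → ℝ
  | .v i => D i
  | .add a b => dv K E D a + dv K E D b
  | .sub a b => dv K E D a - dv K E D b
  | .mul a b => dv K E D a * b.ev K E + a.ev K E * dv K E D b
  | .sin a => Real.cos (a.ev K E) * dv K E D a
  | .cos a => -Real.sin (a.ev K E) * dv K E D a
  | _ => 0

/-- `D n, D (n+1), ...` are the derivatives of the listed expressions -/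
def DDfs (K E D : ℕ → ℝ) : ℕ → List Ex → Prop
  | _, [] => True
  | n, e :: es => D n = dv K E D e ∧ DDfs K E D (n + 1) es

def SCalc : Prop := ∀ (K : ℕ → ℝ) (ds : List Ex) (n : ℕ), ds.all pt = true →
  (∀ E : ℝ × (Fin 9 → ℝ) → ℕ → ℝ, (∀ i, ContDiff ℝ ω fun w => E w i) →
    ∀ i, ContDiff ℝ ω fun w => runR K ds n (E w) i) ∧
  (ltAll n ds = true → ∀ (E : ℝ → ℕ → ℝ) (D0 : ℕ → ℝ),
    (∀ i, HasDerivAt (fun t => E t i) (D0 i) 0) →
    ∃ D : ℕ → ℝ, (∀ i, HasDerivAt (fun t => runR K ds n (E t) i) (D i) 0) ∧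
      (∀ i, i < n → D i = D0 i) ∧ DDfs K (runR K ds n (E 0)) D n ds) ∧
  ∀ (K' E : ℕ → ℝ), Dfs K E n ds → Dfs K' E n ds

def SCont : Prop := ∀ (a b : ℝ) (G : ℝ × (Fin 9 → ℝ) → Fin 9 → ℝ) (H : ℝ × (Fin 9 → ℝ) → ℝ),
  a ≤ b → ContDiff ℝ ω G → (∀ M ∈ Icc a b, ∀ z, AnalyticAt ℝ H (M, z)) →
  (∀ M ∈ Icc a b, ∀ z : Fin 9 → ℝ, (∀ i, |z i| ≤ 1) → G (M, z) = 0 → (∀ i, |z i| < 1) ∧
    ∀ u : Fin 9 → ℝ, HasDerivAt (fun t : ℝ => G (M, z + t • u)) 0 0 → u = 0) →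
  (∃ᶠ M in 𝓝[>] b, ∃ z : Fin 9 → ℝ, (∀ i, |z i| ≤ 1) ∧ G (M, z) = 0 ∧ H (M, z) = 0) →
  ∃ z : Fin 9 → ℝ, (∀ i, |z i| ≤ 1) ∧ G (a, z) = 0 ∧ H (a, z) = 0

end Pool.Agent.MP_e5b4ec_an.Na
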