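import Pool.Agent.MP_e5b4ec_an.Na.Dt
import Pool.Agent.MP_e5b4ec_an.Na.St

/-! The derivative of the residuals in the cube variables. -/

set_option maxRecDepth 20000
set_option linter.unusedSimpArgs false

namespace Pool.Agent.MP_e5b4ec_an.Na

open Mid

theorem semD {K E D : ℕ → ℝ} (eG : Dfs K E 23 dsG) (eJ : Dfs K E 139 dsJ)
    (dX : DDfs K E D 10 dsX) (dG : DDfs K E D 23 dsG) (z0 : D 0 = 0) :
    D 130 = E 139 * D 1 + E 140 * D 2 + E 141 * D 3 + E 142 * D 4 + E 143 * D 5 + E 144 * D 6 + E 145
      * D 7 + E 146 * D 8 + E 189 * D 9 ∧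
    D 131 = E 147 * D 1 + E 148 * D 2 + E 149 * D 3 + E 150 * D 4 + E 151 * D 7 + E 152 * D 8 + E 190
      * D 9 ∧
    D 132 = E 153 * D 3 + E 154 * D 4 + E 155 * D 8 ∧
    D 133 = E 156 * D 2 + E 157 * D 3 + E 158 * D 7 + E 159 * D 8 ∧
    D 134 = E 160 * D 1 + E 161 * D 2 + E 162 * D 6 + E 163 * D 7 ∧
    D 135 = E 164 * D 1 + E 165 * D 5 + E 166 * D 6 ∧
    D 136 = E 167 * D 1 + E 168 * D 2 + E 169 * D 3 + E 170 * D 6 + E 171 * D 7 + E 172 * D 8 ∧
    D 137 = E 173 * D 1 + E 174 * D 2 + E 175 * D 3 + E 176 * D 4 + E 177 * D 5 + E 178 * D 6 + E 179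
      * D 7 + E 180 * D 8 ∧
    D 138 = E 181 * D 1 + E 182 * D 2 + E 183 * D 3 + E 184 * D 4 + E 185 * D 5 + E 186 * D 6 + E 187
      * D 7 + E 188 * D 8 := by
  simp only [dsG, dsJ, Dfs, Ex.ev, Nat.reduceAdd] at eG eJ
  simp only [dsX, dsG, DDfs, dv, Ex.ev, Nat.reduceAdd, z0, zero_mul, zero_add, add_zero, sub_zero,
    mul_zero] at dX dG
  obtain ⟨e23, e24, e25, e26, e27, e28, e29, e30, e31, e32, e33, e34, e35, e36, e37, e38, e39, e40,
    e41, e42, e43, e44, e45, -⟩ := eG
  obtain ⟨e139, e140, e141, e142, e143, e144, e145, e146, e147, e148, e149, e150, e151, e152, e153,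
    e154, e155, e156, e157, e158, e159, e160, e161, e162, e163, e164, e165, e166, e167, e168,
    e169, e170, e171, e172, e173, e174, e175, e176, e177, e178, e179, e180, e181, e182, e183,
    e184, e185, e186, e187, e188, e189, e190, -⟩ := eJ
  obtain ⟨z10, d11, d12, d13, d14, d15, d16, d17, d18, d19, d20, d21, d22, -⟩ := dX
  obtain ⟨d23, d24, d25, d26, d27, d28, d29, d30, d31, d32, d33, d34, d35, d36, d37, d38, d39, d40,
    d41, d42, d43, d44, d45, d46, d47, d48, d49, d50, d51, d52, d53, d54, d55, d56, d57, d58,
    d59, d60, d61, d62, d63, d64, d65, d66, d67, d68, d69, d70, d71, d72, d73, d74, d75, d76,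
    d77, d78, d79, d80, d81, d82, d83, d84, d85, d86, d87, d88, d89, d90, d91, d92, d93, d94,
    d95, d96, d97, d98, d99, d100, d101, d102, d103, d104, d105, d106, d107, d108, d109, d110,
    d111, d112, d113, d114, d115, d116, d117, d118, d119, d120, d121, d122, d123, d124, d125,
    d126, d127, d128, d129, d130, d131, d132, d133, d134, d135, d136, d137, d138, -⟩ := dG
  have z45 : D 45 = 0 := d45
  have z46 : D 46 = 0 := by
    simp only [d46, z45, zero_mul, mul_zero, add_zero, sub_zero]
  have z47 : D 47 = 0 := d47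
  have z48 : D 48 = 0 := by
    simp only [d48, z45, zero_mul, mul_zero, add_zero, sub_zero]
  have z49 : D 49 = 0 := by
    simp only [d49, z48, zero_mul, mul_zero, add_zero, sub_zero]
  have z50 : D 50 = 0 := by
    simp only [d50, z46, zero_mul, mul_zero, add_zero, sub_zero]
  have z51 : D 51 = 0 := by
    simp only [d51, z46, zero_mul, mul_zero, add_zero, sub_zero]
  have z52 : D 52 = 0 := by
    simp only [d52, z45, z48, zero_mul, mul_zero, add_zero, sub_zero]
  have z53 : D 53 = 0 := d53
  have z54 : D 54 = 0 := by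
    simp only [d54, z49, zero_mul, mul_zero, add_zero, sub_zero]
  have z55 : D 55 = 0 := by
    simp only [d55, z50, zero_mul, mul_zero, add_zero, sub_zero]
  have z58 : D 58 = 0 := by
    simp only [d58, z47, zero_mul, mul_zero, add_zero, sub_zero]
  have z59 : D 59 = 0 := by
    simp only [d59, z49, zero_mul, mul_zero, add_zero, sub_zero]
  have z60 : D 60 = 0 := by
    simp only [d60, z48, zero_mul, mul_zero, add_zero, sub_zero]
  have z61 : D 61 = 0 := by
    simp only [d61, z46, zero_mul, mul_zero, add_zero, sub_zero]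
  have z74 : D 74 = 0 := by
    simp only [d74, z10, zero_mul, mul_zero, add_zero, sub_zero]
  have z75 : D 75 = 0 := by
    simp only [d75, z10, zero_mul, mul_zero, add_zero, sub_zero]
  have z76 : D 76 = 0 := d76
  have z77 : D 77 = 0 := by
    simp only [d77, z10, zero_mul, mul_zero, add_zero, sub_zero]
  have z78 : D 78 = 0 := by
    simp only [d78, z10, zero_mul, mul_zero, add_zero, sub_zero]
  have z79 : D 79 = 0 := by
    simp only [d79, z10, zero_mul, mul_zero, add_zero, sub_zero]
  have z80 : D 80 = 0 := by
    simp only [d80, z10, zero_mul, mul_zero, add_zero, sub_zero]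
  have z81 : D 81 = 0 := by
    simp only [d81, z10, zero_mul, mul_zero, add_zero, sub_zero]
  have z82 : D 82 = 0 := by
    simp only [d82, z10, zero_mul, mul_zero, add_zero, sub_zero]
  have z83 : D 83 = 0 := d83
  have z84 : D 84 = 0 := d84
  have z85 : D 85 = 0 := by
    simp only [d85, z10, zero_mul, mul_zero, add_zero, sub_zero]
  have z86 : D 86 = 0 := by
    simp only [d86, z10, zero_mul, mul_zero, add_zero, sub_zero]
  have z87 : D 87 = 0 := by
    simp only [d87, z10, zero_mul, mul_zero, add_zero, sub_zero]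
  have z88 : D 88 = 0 := by
    simp only [d88, z10, zero_mul, mul_zero, add_zero, sub_zero]
  have z89 : D 89 = 0 := by
    simp only [d89, z10, zero_mul, mul_zero, add_zero, sub_zero]
  have z90 : D 90 = 0 := by
    simp only [d90, z10, zero_mul, mul_zero, add_zero, sub_zero]
  have z91 : D 91 = 0 := by
    simp only [d91, z10, zero_mul, mul_zero, add_zero, sub_zero]
  have z92 : D 92 = 0 := by
    simp only [d92, z10, zero_mul, mul_zero, add_zero, sub_zero]
  have z93 : D 93 = 0 := by
    simp only [d93, z10, zero_mul, mul_zero, add_zero, sub_zero]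
  have z94 : D 94 = 0 := by
    simp only [d94, z10, zero_mul, mul_zero, add_zero, sub_zero]
  have z95 : D 95 = 0 := by
    simp only [d95, z10, zero_mul, mul_zero, add_zero, sub_zero]
  have z96 : D 96 = 0 := by
    simp only [d96, z10, zero_mul, mul_zero, add_zero, sub_zero]
  have z98 : D 98 = 0 := by
    simp only [d98, z10, zero_mul, mul_zero, add_zero, sub_zero]
  have z100 : D 100 = 0 := by
    simp only [d100, z10, zero_mul, mul_zero, add_zero, sub_zero]
  have z102 : D 102 = 0 := by
    simp only [d102, z10, zero_mul, mul_zero, add_zero, sub_zero]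
  have z103 : D 103 = 0 := by
    simp only [d103, z10, zero_mul, mul_zero, add_zero, sub_zero]
  have z104 : D 104 = 0 := by
    simp only [d104, z10, zero_mul, mul_zero, add_zero, sub_zero]
  have z105 : D 105 = 0 := by
    simp only [d105, z10, zero_mul, mul_zero, add_zero, sub_zero]
  have z106 : D 106 = 0 := by
    simp only [d106, z10, zero_mul, mul_zero, add_zero, sub_zero]
  have z107 : D 107 = 0 := by
    simp only [d107, z10, zero_mul, mul_zero, add_zero, sub_zero]
  have z109 : D 109 = 0 := by
    simp only [d109, z10, zero_mul, mul_zero, add_zero, sub_zero]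
  have z111 : D 111 = 0 := by
    simp only [d111, z10, zero_mul, mul_zero, add_zero, sub_zero]
  have z113 : D 113 = 0 := by
    simp only [d113, z10, zero_mul, mul_zero, add_zero, sub_zero]
  have z115 : D 115 = 0 := by
    simp only [d115, z10, zero_mul, mul_zero, add_zero, sub_zero]
  have z116 : D 116 = 0 := by
    simp only [d116, z10, zero_mul, mul_zero, add_zero, sub_zero]
  have z118 : D 118 = 0 := by
    simp only [d118, z10, zero_mul, mul_zero, add_zero, sub_zero]
  have z120 : D 120 = 0 := by
    simp only [d120, z10, zero_mul, mul_zero, add_zero, sub_zero]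
  have z122 : D 122 = 0 := by
    simp only [d122, z10, zero_mul, mul_zero, add_zero, sub_zero]
  have z124 : D 124 = 0 := by
    simp only [d124, z10, zero_mul, mul_zero, add_zero, sub_zero]
  have z126 : D 126 = 0 := by
    simp only [d126, z10, zero_mul, mul_zero, add_zero, sub_zero]
  have z128 : D 128 = 0 := by
    simp only [d128, z10, zero_mul, mul_zero, add_zero, sub_zero]
  refine ⟨?_, ?_, ?_, ?_, ?_, ?_, ?_, ?_, ?_⟩
  · simp only [d130, d73, d72, d71, d70, d69, d68, d67, d66, d65, d64, d63, d62, z61, z60, z59, z58, d57,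
      d56, z55, z54, z53, z51, z50, z49, d22, d21, d20, d19, d18, d17, d16, d15, d14, d13, d12,
      d11, z10, e139, e140, e141, e142, e143, e144, e145, e146, e189]
    push_cast
    ring
  · simp only [d131, d67, d66, d65, d64, d63, z59, z58, d57, d56, z55, z54, z51, z50, z45, d21, d20, d19,
      d18, d17, d14, d13, d12, d11, z10, e147, e148, e149, e150, e151, e152, e190, e45]
    push_cast
    ring
  · simp only [d132, z76, z75, z74, d27, d26, d25, d20, d18, d14, d13, z10, e153, e154, e155, e25, e26,
      e27, e36, e37, e38]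
    push_cast
    ring
  · simp only [d133, z80, z79, z78, z77, d33, d32, d28, d27, d21, d20, d18, d17, d13, d12, z10, e156,
      e157, e158, e159, e27, e28, e32, e33, e38, e39, e43, e44]
    push_cast
    ring
  · simp only [d134, z84, z83, z82, z81, d32, d31, d24, d23, d17, d16, d12, d11, z10, e160, e161, e162,
      e163, e23, e24, e31, e32, e34, e35, e42, e43]
    push_cast
    ring
  · simp only [d135, z87, z86, z85, d31, d30, d29, d22, d16, d15, d11, z10, e164, e165, e166, e29, e30,
      e31, e40, e41, e42]
    push_cast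
    ring
  · simp only [d136, z93, z92, z91, z90, z89, z88, d29, d28, d27, d25, d24, d23, d22, d21, d20, d18, d17,
      d16, d13, d12, d11, z10, e167, e168, e169, e170, e171, e172, e23, e24, e25, e27, e28, e29,
      e34, e35, e36, e38, e39, e40]
    push_cast
    ring
  · simp only [d137, d108, z107, z106, z105, z104, z103, z102, d101, z100, d99, z98, d97, z96, z95, z94,
      d44, d38, d37, d36, d33, d32, d31, d30, d29, d28, d27, d26, d25, d24, d23, d22, d21, d20,
      d18, d17, d16, d15, d14, d13, d12, d11, z10, e173, e174, e175, e176, e177, e178, e179,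
      e180, e23, e24, e25, e26, e27, e28, e29, e30, e31, e32, e33, e34, e35, e36, e37, e38, e39,
      e40, e41, e42, e43, e44]
    push_cast
    ring
  · simp only [d138, d129, z128, d127, z126, d125, z124, d123, z122, d121, z120, d119, z118, d117, z116,
      z115, d114, z113, d112, z111, d110, z109, d44, d43, d42, d41, d40, d39, d38, d36, d35, d34,
      d33, d32, d31, d30, d29, d28, d27, d26, d25, d24, d23, d22, d21, d20, d18, d17, d16, d15,
      d14, d13, d12, d11, z10, e181, e182, e183, e184, e185, e186, e187, e188, e23, e24, e25,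
      e26, e27, e28, e29, e30, e31, e32, e33, e34, e35, e36, e37, e38, e39, e40, e41, e42, e43,
      e44]
    push_cast
    ring

end Pool.Agent.MP_e5b4ec_an.Na
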