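import Pool.Agent.MP_e5b4ec_an.Mid.AAd

/-! Expression lists of the rescaled system. -/

namespace Pool.Agent.MP_e5b4ec_an.Na

open Mid

/-- registers 10 to 22 : break points and the rescaled height -/
def dsX : List Ex := [
.sub (.v 0) (.q 9 8),
.add (.add (.q 1080037 2000000) (.mul (.v 10) (.add (.q (-129587) 1000000) (.mul (.v 10) (.add
    (.q (-10097) 100000) (.mul (.v 10) (.add (.q 1763 5000) (.mul (.v 10) (.q (-537)
    1000))))))))) (.mul (.q 7 50000) (.v 1)),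
.add (.add (.q 6650603 10000000) (.mul (.v 10) (.add (.q (-135351) 1000000) (.mul (.v 10) (.add
    (.q (-2719) 50000) (.mul (.v 10) (.add (.q 1117 5000) (.mul (.v 10) (.q (-29) 100)))))))))
    (.mul (.q 1 12500) (.v 2)),
.add (.add (.q 8833539 10000000) (.mul (.v 10) (.add (.q (-71981) 500000) (.mul (.v 10) (.add (.q
    29 2000) (.mul (.v 10) (.add (.q 549 5000) (.mul (.v 10) (.q (-107) 1000))))))))) (.mul (.q 1
    20000) (.v 3)),
.add (.add (.q 10621153 10000000) (.mul (.v 10) (.add (.q (-14683) 200000) (.mul (.v 10) (.add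
    (.q (-4017) 100000) (.mul (.v 10) (.add (.q 541 10000) (.mul (.v 10) (.q (-1) 50)))))))))
    (.mul (.q 1 100000) (.v 4)),
.add (.add (.q 20848761 10000000) (.mul (.v 10) (.add (.q (-137913) 1000000) (.mul (.v 10) (.add
    (.q 12547 100000) (.mul (.v 10) (.add (.q (-791) 10000) (.mul (.v 10) (.q 7 200)))))))))
    (.mul (.q 1 100000) (.v 5)),
.add (.add (.q 925223 400000) (.mul (.v 10) (.add (.q (-295901) 1000000) (.mul (.v 10) (.add (.q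
    11647 100000) (.mul (.v 10) (.add (.q 1093 10000) (.mul (.v 10) (.q (-53) 200))))))))) (.mul
    (.q 9 100000) (.v 6)),
.add (.add (.q 24274089 10000000) (.mul (.v 10) (.add (.q (-31729) 125000) (.mul (.v 10) (.add
    (.q 1287 10000) (.mul (.v 10) (.add (.q 697 10000) (.mul (.v 10) (.q (-167) 1000)))))))))
    (.mul (.q 7 100000) (.v 7)),
.add (.add (.q 6517559 2500000) (.mul (.v 10) (.add (.q (-114441) 500000) (.mul (.v 10) (.add (.q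
    18703 100000) (.mul (.v 10) (.add (.q 23 625) (.mul (.v 10) (.q (-53) 500))))))))) (.mul (.q
    1 12500) (.v 8)),
.add (.add (.q (-4403719) 5000000) (.mul (.v 10) (.add (.q 281303 250000) (.mul (.v 10) (.add (.q
    (-149339) 100000) (.mul (.v 10) (.add (.q 20239 10000) (.mul (.v 10) (.q (-1239) 500)))))))))
    (.mul (.q 1 5000) (.v 9)),
.sub .pi (.mul (.q 1 2) (.add (.v 13) (.v 18))),
.sub .pi (.mul (.q 1 2) (.add (.v 12) (.v 17))),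
.sub .pi (.mul (.q 1 2) (.add (.v 11) (.v 16)))]

/-- registers 23 to 138 : coefficients and residuals -/
def dsG : List Ex := [
.cos (.v 11),
.cos (.v 12),
.cos (.v 13),
.cos (.v 14),
.cos (.v 20),
.cos (.v 21),
.cos (.v 22),
.cos (.v 15),
.cos (.v 16),
.cos (.v 17),
.cos (.v 18),
.sin (.v 11),
.sin (.v 12),
.sin (.v 13),
.sin (.v 14),
.sin (.v 20),
.sin (.v 21),
.sin (.v 22),
.sin (.v 15),
.sin (.v 16),
.sin (.v 17),
.sin (.v 18),
.add (.v 0) (.q 1 1),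
.mul (.v 0) (.v 45),
.mul (.v 0) (.v 0),
.mul (.v 45) (.v 45),
.mul (.v 0) (.v 48),
.mul (.v 0) (.v 46),
.mul (.v 46) (.v 46),
.mul (.v 45) (.v 48),
.add .pi .pi,
.mul (.q (-1) 2) (.v 49),
.sub (.q 0 1) (.v 50),
.mul (.v 51) (.v 19),
.mul (.v 50) (.sub (.add (.v 19) (.v 19)) (.q 1 1)),
.sub (.q 0 1) (.mul (.v 47) (.add (.v 0) (.q 3 1))),
.sub (.q 0 1) (.v 49),
.sub (.q 0 1) (.mul (.v 48) (.add (.v 0) (.q 1 2))),
.sub (.q 0 1) (.mul (.v 46) (.add (.v 0) (.q 2 1))),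
.mul (.v 49) (.sub (.v 19) (.q 1 1)),
.mul (.v 54) (.sub (.v 12) (.v 11)),
.mul (.v 55) (.sub (.v 13) (.v 12)),
.mul (.v 56) (.sub (.v 14) (.v 13)),
.mul (.v 57) (.sub (.v 20) (.v 14)),
.mul (.v 58) (.sub (.v 21) (.v 20)),
.mul (.v 59) (.sub (.v 22) (.v 21)),
.mul (.v 55) (.sub (.v 15) (.v 22)),
.mul (.v 59) (.sub (.v 16) (.v 15)),
.mul (.v 60) (.sub (.v 17) (.v 16)),
.mul (.v 61) (.sub (.v 18) (.v 17)),
.mul (.v 62) (.sub .pi (.v 18)),
.add (.q (-17) 8) (.mul (.v 10) (.q (-1) 1)),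
.add (.q 25 8) (.mul (.v 10) (.q 1 1)),
.q (-1) 1,
.add (.q 9 8) (.mul (.v 10) (.q 1 1)),
.add (.q (-9) 8) (.mul (.v 10) (.q (-1) 1)),
.add (.q (-17) 8) (.mul (.v 10) (.q (-1) 1)),
.add (.q 17 8) (.mul (.v 10) (.q 1 1)),
.add (.q 9 8) (.mul (.v 10) (.q 1 1)),
.add (.q (-9) 8) (.mul (.v 10) (.q (-1) 1)),
.q (-1) 1,
.q 1 1,
.add (.q 9 8) (.mul (.v 10) (.q 1 1)),
.add (.q (-13) 4) (.mul (.v 10) (.q (-2) 1)),
.add (.q 17 8) (.mul (.v 10) (.q 1 1)),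
.add (.q (-4913) 512) (.mul (.v 10) (.add (.q (-867) 64) (.mul (.v 10) (.add (.q (-51) 8) (.mul
    (.v 10) (.q (-1) 1)))))),
.add (.q 6137 512) (.mul (.v 10) (.add (.q 1075 64) (.mul (.v 10) (.add (.q 59 8) (.mul (.v 10)
    (.q 1 1)))))),
.add (.q (-153) 64) (.mul (.v 10) (.add (.q (-13) 4) (.mul (.v 10) (.q (-1) 1)))),
.add (.q (-9) 8) (.mul (.v 10) (.q (-1) 1)),
.add (.q 361 64) (.mul (.v 10) (.add (.q 21 4) (.mul (.v 10) (.q 1 1)))),
.add (.q (-289) 64) (.mul (.v 10) (.add (.q (-17) 4) (.mul (.v 10) (.q (-1) 1)))),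
.add (.q 1423 10240) (.mul (.v 10) (.add (.q 197 1280) (.mul (.v 10) (.add (.q (-11) 160) (.mul
    (.v 10) (.q (-1) 20)))))),
.add (.q (-199) 10240) (.mul (.v 10) (.add (.q 11 1280) (.mul (.v 10) (.add (.q 19 160) (.mul (.v
    10) (.q 1 20)))))),
.add (.q (-153) 64) (.mul (.v 10) (.add (.q (-13) 4) (.mul (.v 10) (.q (-1) 1)))),
.sub (.add (.add (.q 6511 1280) (.mul (.q (-153) 64) .pi)) (.mul (.v 10) (.add (.add (.q 1131
    160) (.mul (.q (-13) 4) .pi)) (.mul (.v 10) (.add (.q 11 5) (.mul (.q (-1) 1) .pi)))))) (.mul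
    (.v 96) (.v 13)),
.add (.q 9 64) (.mul (.v 10) (.add (.q 5 4) (.mul (.v 10) (.q 1 1)))),
.sub (.add (.add (.q (-245) 32) (.mul (.q 153 64) .pi)) (.mul (.v 10) (.add (.add (.q (-1517)
    160) (.mul (.q 13 4) .pi)) (.mul (.v 10) (.add (.q (-9) 4) (.mul (.q 1 1) .pi)))))) (.mul (.v
    98) (.v 14)),
.add (.q 9 4) (.mul (.v 10) (.q 2 1)),
.sub (.add (.q 91 32) (.mul (.v 10) (.add (.q 461 160) (.mul (.v 10) (.q 1 4))))) (.mul (.v 100)
    (.v 20)),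
.add (.q (-43) 256) (.mul (.v 10) (.add (.q (-67) 160) (.mul (.v 10) (.q (-1) 5)))),
.add (.q (-29) 256) (.mul (.v 10) (.add (.q (-9) 80) (.mul (.v 10) (.q (-1) 20)))),
.add (.q (-13) 40) (.mul (.v 10) (.q (-1) 5)),
.add (.q (-27) 80) (.mul (.v 10) (.q (-3) 20)),
.add (.q (-3) 10) (.mul (.v 10) (.add (.q (-109) 160) (.mul (.v 10) (.q (-1) 4)))),
.add (.q (-17) 8) (.mul (.v 10) (.q (-1) 1)),
.sub (.add (.add (.q 17 20) (.mul (.q (-17) 8) .pi)) (.mul (.v 10) (.add (.add (.q 149 160) (.mul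
    (.q (-1) 1) .pi)) (.mul (.v 10) (.q 1 4))))) (.mul (.v 107) (.v 18)),
.add (.q (-2601) 8192) (.mul (.v 10) (.add (.q (-799) 256) (.mul (.v 10) (.add (.q (-319) 64)
    (.mul (.v 10) (.add (.q (-11) 4) (.mul (.v 10) (.q (-1) 2)))))))),
.sub (.add (.add (.q (-163331) 5120) (.mul (.q 44217 4096) .pi)) (.mul (.v 10) (.add (.add (.q
    (-764419) 10240) (.mul (.q 3179 128) .pi)) (.mul (.v 10) (.add (.add (.q (-68569) 1280) (.mul
    (.q 663 32) .pi)) (.mul (.v 10) (.add (.add (.q (-2089) 160) (.mul (.q 15 2) .pi)) (.mul (.v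
    10) (.add (.q (-7) 4) (.mul (.q 1 1) .pi)))))))))) (.mul (.v 109) (.v 11)),
.add (.q (-153) 8192) (.mul (.v 10) (.add (.q (-83) 256) (.mul (.v 10) (.add (.q (-103) 64) (.mul
    (.v 10) (.add (.q (-7) 4) (.mul (.v 10) (.q (-1) 2)))))))),
.sub (.add (.add (.q 186587 5120) (.mul (.q (-44217) 4096) .pi)) (.mul (.v 10) (.add (.add (.q
    870491 10240) (.mul (.q (-3179) 128) .pi)) (.mul (.v 10) (.add (.add (.q 78281 1280) (.mul
    (.q (-663) 32) .pi)) (.mul (.v 10) (.add (.add (.q 2369 160) (.mul (.q (-15) 2) .pi)) (.mul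
    (.v 10) (.add (.q 7 4) (.mul (.q (-1) 1) .pi)))))))))) (.mul (.v 111) (.v 12)),
.add (.q (-1377) 256) (.mul (.v 10) (.add (.q (-387) 32) (.mul (.v 10) (.add (.q (-35) 4) (.mul
    (.v 10) (.q (-2) 1)))))),
.sub (.add (.q (-595) 128) (.mul (.v 10) (.add (.q (-13323) 1280) (.mul (.v 10) (.add (.q (-607)
    80) (.mul (.v 10) (.q (-7) 4))))))) (.mul (.v 113) (.v 13)),
.add (.q 5 32) (.mul (.v 10) (.q 1 20)),
.add (.q 81 16) (.mul (.v 10) (.add (.q 9 1) (.mul (.v 10) (.q 4 1)))),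
.sub (.add (.q 581 80) (.mul (.v 10) (.add (.q 415 32) (.mul (.v 10) (.q 23 4))))) (.mul (.v 116)
    (.v 20)),
.add (.q 9 512) (.mul (.v 10) (.add (.q 19 64) (.mul (.v 10) (.add (.q 11 8) (.mul (.v 10) (.q 1
    1)))))),
.sub (.add (.q 811 640) (.mul (.v 10) (.add (.q 3851 1280) (.mul (.v 10) (.add (.q 287 80) (.mul
    (.v 10) (.q 7 4))))))) (.mul (.v 118) (.v 21)),
.add (.q 153 512) (.mul (.v 10) (.add (.q 179 64) (.mul (.v 10) (.add (.q 27 8) (.mul (.v 10) (.q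
    1 1)))))),
.sub (.add (.q 1457 640) (.mul (.v 10) (.add (.q 10621 1280) (.mul (.v 10) (.add (.q 293 80)
    (.mul (.v 10) (.q (-7) 4))))))) (.mul (.v 120) (.v 22)),
.add (.q (-153) 512) (.mul (.v 10) (.add (.q (-179) 64) (.mul (.v 10) (.add (.q (-27) 8) (.mul
    (.v 10) (.q (-1) 1)))))),
.sub (.add (.add (.q (-2509) 80) (.mul (.q 2601 256) .pi)) (.mul (.v 10) (.add (.add (.q (-1231)
    20) (.mul (.q 595 32) .pi)) (.mul (.v 10) (.add (.add (.q (-26) 1) (.mul (.q 43 4) .pi))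
    (.mul (.v 10) (.mul (.q 2 1) .pi))))))) (.mul (.v 122) (.v 15)),
.add (.q (-289) 1024) (.mul (.v 10) (.add (.q (-323) 128) (.mul (.v 10) (.add (.q (-35) 16) (.mul
    (.v 10) (.q (-1) 2)))))),
.sub (.add (.add (.q 1045 32) (.mul (.q (-2601) 256) .pi)) (.mul (.v 10) (.add (.add (.q 2201 40)
    (.mul (.q (-595) 32) .pi)) (.mul (.v 10) (.add (.add (.q 13 1) (.mul (.q (-43) 4) .pi)) (.mul
    (.v 10) (.mul (.q (-2) 1) .pi))))))) (.mul (.v 124) (.v 16)),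
.add (.q (-17) 1024) (.mul (.v 10) (.add (.q (-35) 128) (.mul (.v 10) (.add (.q (-19) 16) (.mul
    (.v 10) (.q (-1) 2)))))),
.sub (.add (.add (.q (-30) 1) (.mul (.q 153 16) .pi)) (.mul (.v 10) (.add (.add (.q (-3367) 80)
    (.mul (.q 13 1) .pi)) (.mul (.v 10) (.add (.q (-15) 2) (.mul (.q 4 1) .pi)))))) (.mul (.v
    126) (.v 17)),
.add (.q (-153) 32) (.mul (.v 10) (.add (.q (-13) 2) (.mul (.v 10) (.q (-2) 1)))),
.sub (.add (.add (.q 357 20) (.mul (.q (-153) 16) .pi)) (.mul (.v 10) (.add (.add (.q 1947 80)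
    (.mul (.q (-13) 1) .pi)) (.mul (.v 10) (.add (.q 15 2) (.mul (.q (-4) 1) .pi)))))) (.mul (.v
    128) (.v 18)),
.sub (.add (.mul (.v 51) (.sub (.add (.v 21) (.v 17)) (.v 53))) (.add (.add (.v 63) (.v 63))
    (.add (.add (.v 64) (.v 65)) (.add (.v 66) (.v 67))))) (.mul (.v 0) (.add (.add (.add (.v 68)
    (.v 69)) (.add (.v 70) (.v 71))) (.add (.add (.v 72) (.v 73)) (.add (.v 72) (.v 73))))),
.sub (.mul (.v 45) (.sub (.v 63) (.mul (.v 55) (.v 12)))) (.mul (.v 0) (.add (.add (.add (.v 63)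
    (.v 64)) (.add (.v 65) (.v 66))) (.sub (.v 67) (.mul (.v 59) (.v 21))))),
.add (.add (.mul (.v 74) (.v 25)) (.mul (.v 75) (.v 26))) (.mul (.v 76) (.v 27)),
.add (.add (.add (.mul (.v 77) (.v 27)) (.mul (.v 78) (.v 28))) (.mul (.v 79) (.v 32))) (.mul (.v
    80) (.v 33)),
.add (.add (.add (.mul (.v 81) (.v 23)) (.mul (.v 82) (.v 24))) (.mul (.v 83) (.v 31))) (.mul (.v
    84) (.v 32)),
.add (.add (.mul (.v 85) (.v 29)) (.mul (.v 86) (.v 30))) (.mul (.v 87) (.v 31)),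
.add (.add (.add (.add (.add (.mul (.v 88) (.v 23)) (.mul (.v 89) (.v 24))) (.mul (.v 90) (.v
    25))) (.mul (.v 91) (.v 27))) (.mul (.v 92) (.v 28))) (.mul (.v 93) (.v 29)),
.add (.add (.add (.add (.add (.add (.add (.add (.add (.add (.mul (.v 94) (.v 23)) (.mul (.v 95)
    (.v 24))) (.add (.mul (.v 96) (.v 36)) (.mul (.v 97) (.v 25)))) (.add (.mul (.v 98) (.v 37))
    (.mul (.v 99) (.v 26)))) (.add (.mul (.v 100) (.v 38)) (.mul (.v 101) (.v 27)))) (.mul (.v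
    102) (.v 28))) (.mul (.v 103) (.v 29))) (.mul (.v 104) (.v 30))) (.mul (.v 105) (.v 31)))
    (.mul (.v 106) (.v 32))) (.add (.mul (.v 107) (.v 44)) (.mul (.v 108) (.v 33))),
.add (.add (.add (.add (.add (.add (.add (.add (.add (.add (.add (.mul (.v 109) (.v 34)) (.mul
    (.v 110) (.v 23))) (.add (.mul (.v 111) (.v 35)) (.mul (.v 112) (.v 24)))) (.add (.mul (.v
    113) (.v 36)) (.mul (.v 114) (.v 25)))) (.mul (.v 115) (.v 26))) (.add (.mul (.v 116) (.v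
    38)) (.mul (.v 117) (.v 27)))) (.add (.mul (.v 118) (.v 39)) (.mul (.v 119) (.v 28)))) (.add
    (.mul (.v 120) (.v 40)) (.mul (.v 121) (.v 29)))) (.add (.mul (.v 122) (.v 41)) (.mul (.v
    123) (.v 30)))) (.add (.mul (.v 124) (.v 42)) (.mul (.v 125) (.v 31)))) (.add (.mul (.v 126)
    (.v 43)) (.mul (.v 127) (.v 32)))) (.add (.mul (.v 128) (.v 44)) (.mul (.v 129) (.v 33)))]

/-- registers 139 to 192 : derivatives, numerator and denominator -/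
def dsJ : List Ex := [
.mul (.q 7 50000) (.sub (.sub (.q 0 1) (.add (.v 54) (.v 54))) (.mul (.q 1 2) (.add (.sub (.q 0
    1) (.mul (.v 0) (.v 59))) (.sub (.q 0 1) (.sub (.q 0 1) (.mul (.v 0) (.v 55))))))),
.mul (.q 1 12500) (.sub (.add (.add (.v 54) (.v 54)) (.sub (.q 0 1) (.v 55))) (.mul (.q 1 2)
    (.add (.add (.v 58) (.sub (.q 0 1) (.sub (.q 0 1) (.mul (.v 0) (.v 59))))) (.v 51)))),
.mul (.q 1 20000) (.sub (.add (.v 55) (.sub (.q 0 1) (.v 56))) (.mul (.q 1 2) (.add (.v 57) (.sub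
    (.q 0 1) (.v 58))))),
.mul (.q 1 100000) (.add (.v 56) (.sub (.q 0 1) (.v 57))),
.mul (.q 1 100000) (.add (.sub (.q 0 1) (.mul (.v 0) (.v 55))) (.sub (.q 0 1) (.sub (.q 0 1)
    (.mul (.v 0) (.v 59))))),
.mul (.q 9 100000) (.sub (.add (.sub (.q 0 1) (.mul (.v 0) (.v 59))) (.sub (.q 0 1) (.sub (.q 0
    1) (.mul (.v 0) (.v 60))))) (.mul (.q 1 2) (.add (.sub (.q 0 1) (.mul (.v 0) (.v 59))) (.sub
    (.q 0 1) (.sub (.q 0 1) (.mul (.v 0) (.v 55))))))),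
.mul (.q 7 100000) (.sub (.add (.add (.sub (.q 0 1) (.mul (.v 0) (.v 60))) (.sub (.q 0 1) (.sub
    (.q 0 1) (.mul (.v 0) (.add (.v 61) (.v 61)))))) (.v 51)) (.mul (.q 1 2) (.add (.add (.v 58)
    (.sub (.q 0 1) (.sub (.q 0 1) (.mul (.v 0) (.v 59))))) (.v 51)))),
.mul (.q 1 12500) (.sub (.add (.sub (.q 0 1) (.mul (.v 0) (.add (.v 61) (.v 61)))) (.sub (.q 0 1)
    (.sub (.q 0 1) (.mul (.v 0) (.add (.v 62) (.v 62)))))) (.mul (.q 1 2) (.add (.v 57) (.sub (.q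
    0 1) (.v 58))))),
.mul (.q 7 50000) (.sub (.q 0 1) (.v 54)),
.mul (.q 1 12500) (.sub (.add (.add (.v 54) (.sub (.q 0 1) (.sub (.q 0 1) (.mul (.v 0) (.v
    55))))) (.sub (.q 0 1) (.mul (.v 45) (.v 55)))) (.mul (.q 1 2) (.add (.sub (.q 0 1) (.mul (.v
    0) (.v 58))) (.mul (.v 0) (.v 59))))),
.mul (.q 1 20000) (.sub (.add (.sub (.q 0 1) (.mul (.v 0) (.v 55))) (.sub (.q 0 1) (.sub (.q 0 1)
    (.mul (.v 0) (.v 56))))) (.mul (.q 1 2) (.add (.sub (.q 0 1) (.mul (.v 0) (.v 57))) (.sub (.q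
    0 1) (.sub (.q 0 1) (.mul (.v 0) (.v 58))))))),
.mul (.q 1 100000) (.add (.sub (.q 0 1) (.mul (.v 0) (.v 56))) (.sub (.q 0 1) (.sub (.q 0 1)
    (.mul (.v 0) (.v 57))))),
.mul (.q 7 100000) (.mul (.q (-1) 2) (.add (.sub (.q 0 1) (.mul (.v 0) (.v 58))) (.mul (.v 0) (.v
    59)))),
.mul (.q 1 12500) (.mul (.q (-1) 2) (.add (.sub (.q 0 1) (.mul (.v 0) (.v 57))) (.sub (.q 0 1)
    (.sub (.q 0 1) (.mul (.v 0) (.v 58)))))),
.mul (.q 1 20000) (.sub (.sub (.q 0 1) (.mul (.v 74) (.v 36))) (.mul (.q 1 2) (.sub (.q 0 1)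
    (.mul (.v 76) (.v 38))))),
.mul (.q 1 100000) (.sub (.q 0 1) (.mul (.v 75) (.v 37))),
.mul (.q 1 12500) (.mul (.q (-1) 2) (.sub (.q 0 1) (.mul (.v 76) (.v 38)))),
.mul (.q 1 12500) (.mul (.q (-1) 2) (.sub (.q 0 1) (.mul (.v 78) (.v 39)))),
.mul (.q 1 20000) (.mul (.q (-1) 2) (.sub (.q 0 1) (.mul (.v 77) (.v 38)))),
.mul (.q 7 100000) (.sub (.sub (.q 0 1) (.mul (.v 79) (.v 43))) (.mul (.q 1 2) (.sub (.q 0 1)
    (.mul (.v 78) (.v 39))))),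
.mul (.q 1 12500) (.sub (.sub (.q 0 1) (.mul (.v 80) (.v 44))) (.mul (.q 1 2) (.sub (.q 0 1)
    (.mul (.v 77) (.v 38))))),
.mul (.q 7 50000) (.sub (.q 0 1) (.mul (.v 81) (.v 34))),
.mul (.q 1 12500) (.sub (.q 0 1) (.mul (.v 82) (.v 35))),
.mul (.q 9 100000) (.sub (.q 0 1) (.mul (.v 83) (.v 42))),
.mul (.q 7 100000) (.sub (.q 0 1) (.mul (.v 84) (.v 43))),
.mul (.q 7 50000) (.mul (.q (-1) 2) (.sub (.q 0 1) (.mul (.v 85) (.v 40)))),
.mul (.q 1 100000) (.sub (.q 0 1) (.mul (.v 86) (.v 41))),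
.mul (.q 9 100000) (.sub (.sub (.q 0 1) (.mul (.v 87) (.v 42))) (.mul (.q 1 2) (.sub (.q 0 1)
    (.mul (.v 85) (.v 40))))),
.mul (.q 7 50000) (.sub (.sub (.q 0 1) (.mul (.v 88) (.v 34))) (.mul (.q 1 2) (.sub (.q 0 1)
    (.mul (.v 93) (.v 40))))),
.mul (.q 1 12500) (.sub (.sub (.q 0 1) (.mul (.v 89) (.v 35))) (.mul (.q 1 2) (.sub (.q 0 1)
    (.mul (.v 92) (.v 39))))),
.mul (.q 1 20000) (.sub (.sub (.q 0 1) (.mul (.v 90) (.v 36))) (.mul (.q 1 2) (.sub (.q 0 1)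
    (.mul (.v 91) (.v 38))))),
.mul (.q 9 100000) (.mul (.q (-1) 2) (.sub (.q 0 1) (.mul (.v 93) (.v 40)))),
.mul (.q 7 100000) (.mul (.q (-1) 2) (.sub (.q 0 1) (.mul (.v 92) (.v 39)))),
.mul (.q 1 12500) (.mul (.q (-1) 2) (.sub (.q 0 1) (.mul (.v 91) (.v 38)))),
.mul (.q 7 50000) (.sub (.sub (.q 0 1) (.mul (.v 94) (.v 34))) (.mul (.q 1 2) (.sub (.q 0 1)
    (.mul (.v 103) (.v 40))))),
.mul (.q 1 12500) (.sub (.sub (.q 0 1) (.mul (.v 95) (.v 35))) (.mul (.q 1 2) (.sub (.q 0 1)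
    (.mul (.v 102) (.v 39))))),
.mul (.q 1 20000) (.sub (.sub (.q 0 1) (.mul (.v 97) (.v 36))) (.mul (.q 1 2) (.sub (.q 0 1)
    (.mul (.v 101) (.v 38))))),
.mul (.q 1 100000) (.sub (.q 0 1) (.mul (.v 99) (.v 37))),
.mul (.q 1 100000) (.sub (.q 0 1) (.mul (.v 104) (.v 41))),
.mul (.q 9 100000) (.sub (.sub (.q 0 1) (.mul (.v 105) (.v 42))) (.mul (.q 1 2) (.sub (.q 0 1)
    (.mul (.v 103) (.v 40))))),
.mul (.q 7 100000) (.sub (.sub (.q 0 1) (.mul (.v 106) (.v 43))) (.mul (.q 1 2) (.sub (.q 0 1)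
    (.mul (.v 102) (.v 39))))),
.mul (.q 1 12500) (.sub (.sub (.q 0 1) (.mul (.v 108) (.v 44))) (.mul (.q 1 2) (.sub (.q 0 1)
    (.mul (.v 101) (.v 38))))),
.mul (.q 7 50000) (.sub (.sub (.q 0 1) (.mul (.v 110) (.v 34))) (.mul (.q 1 2) (.sub (.q 0 1)
    (.mul (.v 121) (.v 40))))),
.mul (.q 1 12500) (.sub (.sub (.q 0 1) (.mul (.v 112) (.v 35))) (.mul (.q 1 2) (.sub (.q 0 1)
    (.mul (.v 119) (.v 39))))),
.mul (.q 1 20000) (.sub (.sub (.q 0 1) (.mul (.v 114) (.v 36))) (.mul (.q 1 2) (.sub (.q 0 1)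
    (.mul (.v 117) (.v 38))))),
.mul (.q 1 100000) (.sub (.q 0 1) (.mul (.v 115) (.v 37))),
.mul (.q 1 100000) (.sub (.q 0 1) (.mul (.v 123) (.v 41))),
.mul (.q 9 100000) (.sub (.sub (.q 0 1) (.mul (.v 125) (.v 42))) (.mul (.q 1 2) (.sub (.q 0 1)
    (.mul (.v 121) (.v 40))))),
.mul (.q 7 100000) (.sub (.sub (.q 0 1) (.mul (.v 127) (.v 43))) (.mul (.q 1 2) (.sub (.q 0 1)
    (.mul (.v 119) (.v 39))))),
.mul (.q 1 12500) (.sub (.sub (.q 0 1) (.mul (.v 129) (.v 44))) (.mul (.q 1 2) (.sub (.q 0 1)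
    (.mul (.v 117) (.v 38))))),
.mul (.q 1 5000) (.sub (.add (.mul (.v 51) (.sub (.v 14) (.v 13))) (.mul (.add (.v 50) (.v 50))
    (.sub (.v 20) (.v 14)))) (.mul (.add (.v 0) (.v 0)) (.mul (.v 49) (.sub .pi (.v 18))))),
.mul (.q 1 5000) (.sub (.q 0 1) (.mul (.v 0) (.add (.mul (.v 51) (.sub (.v 14) (.v 13))) (.mul
    (.add (.v 50) (.v 50)) (.sub (.v 20) (.v 14)))))),
.add (.add (.add (.add (.add (.add (.add (.add (.add (.add (.mul (.v 54) (.sub (.v 35) (.v 34)))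
    (.mul (.v 55) (.sub (.v 36) (.v 35)))) (.mul (.v 56) (.sub (.v 37) (.v 36)))) (.mul (.v 57)
    (.sub (.v 38) (.v 37)))) (.mul (.v 58) (.sub (.v 39) (.v 38)))) (.mul (.v 59) (.sub (.v 40)
    (.v 39)))) (.mul (.v 55) (.sub (.v 41) (.v 40)))) (.mul (.v 59) (.sub (.v 42) (.v 41))))
    (.mul (.v 60) (.sub (.v 43) (.v 42)))) (.mul (.v 61) (.sub (.v 44) (.v 43)))) (.mul (.v 62)
    (.sub (.q 0 1) (.v 44))),
.add (.mul (.v 51) .pi) (.mul (.sub (.v 0) (.q 1 1)) (.add (.add (.add (.add (.add (.add (.add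
    (.add (.add (.add (.v 63) (.v 64)) (.v 65)) (.v 66)) (.v 67)) (.v 68)) (.v 69)) (.v 70)) (.v
    71)) (.v 72)) (.v 73)))]

/-- registers 193 to 273 : the derivative of the Newton map -/
def dsM : List Ex := [
.sub (.sub (.sub (.sub (.sub (.sub (.sub (.q 1 1) (.mul (.k 0) (.v 139))) (.mul (.k 1) (.v 147)))
    (.mul (.k 4) (.v 160))) (.mul (.k 5) (.v 164))) (.mul (.k 6) (.v 167))) (.mul (.k 7) (.v
    173))) (.mul (.k 8) (.v 181)),
.sub (.sub (.sub (.sub (.sub (.sub (.sub (.q 0 1) (.mul (.k 0) (.v 140))) (.mul (.k 1) (.v 148)))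
    (.mul (.k 3) (.v 156))) (.mul (.k 4) (.v 161))) (.mul (.k 6) (.v 168))) (.mul (.k 7) (.v
    174))) (.mul (.k 8) (.v 182)),
.sub (.sub (.sub (.sub (.sub (.sub (.sub (.q 0 1) (.mul (.k 0) (.v 141))) (.mul (.k 1) (.v 149)))
    (.mul (.k 2) (.v 153))) (.mul (.k 3) (.v 157))) (.mul (.k 6) (.v 169))) (.mul (.k 7) (.v
    175))) (.mul (.k 8) (.v 183)),
.sub (.sub (.sub (.sub (.sub (.q 0 1) (.mul (.k 0) (.v 142))) (.mul (.k 1) (.v 150))) (.mul (.k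
    2) (.v 154))) (.mul (.k 7) (.v 176))) (.mul (.k 8) (.v 184)),
.sub (.sub (.sub (.sub (.q 0 1) (.mul (.k 0) (.v 143))) (.mul (.k 5) (.v 165))) (.mul (.k 7) (.v
    177))) (.mul (.k 8) (.v 185)),
.sub (.sub (.sub (.sub (.sub (.sub (.q 0 1) (.mul (.k 0) (.v 144))) (.mul (.k 4) (.v 162))) (.mul
    (.k 5) (.v 166))) (.mul (.k 6) (.v 170))) (.mul (.k 7) (.v 178))) (.mul (.k 8) (.v 186)),
.sub (.sub (.sub (.sub (.sub (.sub (.sub (.q 0 1) (.mul (.k 0) (.v 145))) (.mul (.k 1) (.v 151)))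
    (.mul (.k 3) (.v 158))) (.mul (.k 4) (.v 163))) (.mul (.k 6) (.v 171))) (.mul (.k 7) (.v
    179))) (.mul (.k 8) (.v 187)),
.sub (.sub (.sub (.sub (.sub (.sub (.sub (.q 0 1) (.mul (.k 0) (.v 146))) (.mul (.k 1) (.v 152)))
    (.mul (.k 2) (.v 155))) (.mul (.k 3) (.v 159))) (.mul (.k 6) (.v 172))) (.mul (.k 7) (.v
    180))) (.mul (.k 8) (.v 188)),
.sub (.sub (.q 0 1) (.mul (.k 0) (.v 189))) (.mul (.k 1) (.v 190)),
.sub (.sub (.sub (.sub (.sub (.sub (.sub (.q 0 1) (.mul (.k 9) (.v 139))) (.mul (.k 10) (.v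
    147))) (.mul (.k 13) (.v 160))) (.mul (.k 14) (.v 164))) (.mul (.k 15) (.v 167))) (.mul (.k
    16) (.v 173))) (.mul (.k 17) (.v 181)),
.sub (.sub (.sub (.sub (.sub (.sub (.sub (.q 1 1) (.mul (.k 9) (.v 140))) (.mul (.k 10) (.v
    148))) (.mul (.k 12) (.v 156))) (.mul (.k 13) (.v 161))) (.mul (.k 15) (.v 168))) (.mul (.k
    16) (.v 174))) (.mul (.k 17) (.v 182)),
.sub (.sub (.sub (.sub (.sub (.sub (.sub (.q 0 1) (.mul (.k 9) (.v 141))) (.mul (.k 10) (.v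
    149))) (.mul (.k 11) (.v 153))) (.mul (.k 12) (.v 157))) (.mul (.k 15) (.v 169))) (.mul (.k
    16) (.v 175))) (.mul (.k 17) (.v 183)),
.sub (.sub (.sub (.sub (.sub (.q 0 1) (.mul (.k 9) (.v 142))) (.mul (.k 10) (.v 150))) (.mul (.k
    11) (.v 154))) (.mul (.k 16) (.v 176))) (.mul (.k 17) (.v 184)),
.sub (.sub (.sub (.sub (.q 0 1) (.mul (.k 9) (.v 143))) (.mul (.k 14) (.v 165))) (.mul (.k 16)
    (.v 177))) (.mul (.k 17) (.v 185)),
.sub (.sub (.sub (.sub (.sub (.sub (.q 0 1) (.mul (.k 9) (.v 144))) (.mul (.k 13) (.v 162)))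
    (.mul (.k 14) (.v 166))) (.mul (.k 15) (.v 170))) (.mul (.k 16) (.v 178))) (.mul (.k 17) (.v
    186)),
.sub (.sub (.sub (.sub (.sub (.sub (.sub (.q 0 1) (.mul (.k 9) (.v 145))) (.mul (.k 10) (.v
    151))) (.mul (.k 12) (.v 158))) (.mul (.k 13) (.v 163))) (.mul (.k 15) (.v 171))) (.mul (.k
    16) (.v 179))) (.mul (.k 17) (.v 187)),
.sub (.sub (.sub (.sub (.sub (.sub (.sub (.q 0 1) (.mul (.k 9) (.v 146))) (.mul (.k 10) (.v
    152))) (.mul (.k 11) (.v 155))) (.mul (.k 12) (.v 159))) (.mul (.k 15) (.v 172))) (.mul (.k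
    16) (.v 180))) (.mul (.k 17) (.v 188)),
.sub (.sub (.q 0 1) (.mul (.k 9) (.v 189))) (.mul (.k 10) (.v 190)),
.sub (.sub (.sub (.sub (.sub (.sub (.sub (.q 0 1) (.mul (.k 18) (.v 139))) (.mul (.k 19) (.v
    147))) (.mul (.k 22) (.v 160))) (.mul (.k 23) (.v 164))) (.mul (.k 24) (.v 167))) (.mul (.k
    25) (.v 173))) (.mul (.k 26) (.v 181)),
.sub (.sub (.sub (.sub (.sub (.sub (.sub (.q 0 1) (.mul (.k 18) (.v 140))) (.mul (.k 19) (.v
    148))) (.mul (.k 21) (.v 156))) (.mul (.k 22) (.v 161))) (.mul (.k 24) (.v 168))) (.mul (.k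
    25) (.v 174))) (.mul (.k 26) (.v 182)),
.sub (.sub (.sub (.sub (.sub (.sub (.sub (.q 1 1) (.mul (.k 18) (.v 141))) (.mul (.k 19) (.v
    149))) (.mul (.k 20) (.v 153))) (.mul (.k 21) (.v 157))) (.mul (.k 24) (.v 169))) (.mul (.k
    25) (.v 175))) (.mul (.k 26) (.v 183)),
.sub (.sub (.sub (.sub (.sub (.q 0 1) (.mul (.k 18) (.v 142))) (.mul (.k 19) (.v 150))) (.mul (.k
    20) (.v 154))) (.mul (.k 25) (.v 176))) (.mul (.k 26) (.v 184)),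
.sub (.sub (.sub (.sub (.q 0 1) (.mul (.k 18) (.v 143))) (.mul (.k 23) (.v 165))) (.mul (.k 25)
    (.v 177))) (.mul (.k 26) (.v 185)),
.sub (.sub (.sub (.sub (.sub (.sub (.q 0 1) (.mul (.k 18) (.v 144))) (.mul (.k 22) (.v 162)))
    (.mul (.k 23) (.v 166))) (.mul (.k 24) (.v 170))) (.mul (.k 25) (.v 178))) (.mul (.k 26) (.v
    186)),
.sub (.sub (.sub (.sub (.sub (.sub (.sub (.q 0 1) (.mul (.k 18) (.v 145))) (.mul (.k 19) (.v
    151))) (.mul (.k 21) (.v 158))) (.mul (.k 22) (.v 163))) (.mul (.k 24) (.v 171))) (.mul (.k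
    25) (.v 179))) (.mul (.k 26) (.v 187)),
.sub (.sub (.sub (.sub (.sub (.sub (.sub (.q 0 1) (.mul (.k 18) (.v 146))) (.mul (.k 19) (.v
    152))) (.mul (.k 20) (.v 155))) (.mul (.k 21) (.v 159))) (.mul (.k 24) (.v 172))) (.mul (.k
    25) (.v 180))) (.mul (.k 26) (.v 188)),
.sub (.sub (.q 0 1) (.mul (.k 18) (.v 189))) (.mul (.k 19) (.v 190)),
.sub (.sub (.sub (.sub (.sub (.sub (.sub (.q 0 1) (.mul (.k 27) (.v 139))) (.mul (.k 28) (.v
    147))) (.mul (.k 31) (.v 160))) (.mul (.k 32) (.v 164))) (.mul (.k 33) (.v 167))) (.mul (.k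
    34) (.v 173))) (.mul (.k 35) (.v 181)),
.sub (.sub (.sub (.sub (.sub (.sub (.sub (.q 0 1) (.mul (.k 27) (.v 140))) (.mul (.k 28) (.v
    148))) (.mul (.k 30) (.v 156))) (.mul (.k 31) (.v 161))) (.mul (.k 33) (.v 168))) (.mul (.k
    34) (.v 174))) (.mul (.k 35) (.v 182)),
.sub (.sub (.sub (.sub (.sub (.sub (.sub (.q 0 1) (.mul (.k 27) (.v 141))) (.mul (.k 28) (.v
    149))) (.mul (.k 29) (.v 153))) (.mul (.k 30) (.v 157))) (.mul (.k 33) (.v 169))) (.mul (.k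
    34) (.v 175))) (.mul (.k 35) (.v 183)),
.sub (.sub (.sub (.sub (.sub (.q 1 1) (.mul (.k 27) (.v 142))) (.mul (.k 28) (.v 150))) (.mul (.k
    29) (.v 154))) (.mul (.k 34) (.v 176))) (.mul (.k 35) (.v 184)),
.sub (.sub (.sub (.sub (.q 0 1) (.mul (.k 27) (.v 143))) (.mul (.k 32) (.v 165))) (.mul (.k 34)
    (.v 177))) (.mul (.k 35) (.v 185)),
.sub (.sub (.sub (.sub (.sub (.sub (.q 0 1) (.mul (.k 27) (.v 144))) (.mul (.k 31) (.v 162)))
    (.mul (.k 32) (.v 166))) (.mul (.k 33) (.v 170))) (.mul (.k 34) (.v 178))) (.mul (.k 35) (.v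
    186)),
.sub (.sub (.sub (.sub (.sub (.sub (.sub (.q 0 1) (.mul (.k 27) (.v 145))) (.mul (.k 28) (.v
    151))) (.mul (.k 30) (.v 158))) (.mul (.k 31) (.v 163))) (.mul (.k 33) (.v 171))) (.mul (.k
    34) (.v 179))) (.mul (.k 35) (.v 187)),
.sub (.sub (.sub (.sub (.sub (.sub (.sub (.q 0 1) (.mul (.k 27) (.v 146))) (.mul (.k 28) (.v
    152))) (.mul (.k 29) (.v 155))) (.mul (.k 30) (.v 159))) (.mul (.k 33) (.v 172))) (.mul (.k
    34) (.v 180))) (.mul (.k 35) (.v 188)),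
.sub (.sub (.q 0 1) (.mul (.k 27) (.v 189))) (.mul (.k 28) (.v 190)),
.sub (.sub (.sub (.sub (.sub (.sub (.sub (.q 0 1) (.mul (.k 36) (.v 139))) (.mul (.k 37) (.v
    147))) (.mul (.k 40) (.v 160))) (.mul (.k 41) (.v 164))) (.mul (.k 42) (.v 167))) (.mul (.k
    43) (.v 173))) (.mul (.k 44) (.v 181)),
.sub (.sub (.sub (.sub (.sub (.sub (.sub (.q 0 1) (.mul (.k 36) (.v 140))) (.mul (.k 37) (.v
    148))) (.mul (.k 39) (.v 156))) (.mul (.k 40) (.v 161))) (.mul (.k 42) (.v 168))) (.mul (.k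
    43) (.v 174))) (.mul (.k 44) (.v 182)),
.sub (.sub (.sub (.sub (.sub (.sub (.sub (.q 0 1) (.mul (.k 36) (.v 141))) (.mul (.k 37) (.v
    149))) (.mul (.k 38) (.v 153))) (.mul (.k 39) (.v 157))) (.mul (.k 42) (.v 169))) (.mul (.k
    43) (.v 175))) (.mul (.k 44) (.v 183)),
.sub (.sub (.sub (.sub (.sub (.q 0 1) (.mul (.k 36) (.v 142))) (.mul (.k 37) (.v 150))) (.mul (.k
    38) (.v 154))) (.mul (.k 43) (.v 176))) (.mul (.k 44) (.v 184)),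
.sub (.sub (.sub (.sub (.q 1 1) (.mul (.k 36) (.v 143))) (.mul (.k 41) (.v 165))) (.mul (.k 43)
    (.v 177))) (.mul (.k 44) (.v 185)),
.sub (.sub (.sub (.sub (.sub (.sub (.q 0 1) (.mul (.k 36) (.v 144))) (.mul (.k 40) (.v 162)))
    (.mul (.k 41) (.v 166))) (.mul (.k 42) (.v 170))) (.mul (.k 43) (.v 178))) (.mul (.k 44) (.v
    186)),
.sub (.sub (.sub (.sub (.sub (.sub (.sub (.q 0 1) (.mul (.k 36) (.v 145))) (.mul (.k 37) (.v
    151))) (.mul (.k 39) (.v 158))) (.mul (.k 40) (.v 163))) (.mul (.k 42) (.v 171))) (.mul (.k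
    43) (.v 179))) (.mul (.k 44) (.v 187)),
.sub (.sub (.sub (.sub (.sub (.sub (.sub (.q 0 1) (.mul (.k 36) (.v 146))) (.mul (.k 37) (.v
    152))) (.mul (.k 38) (.v 155))) (.mul (.k 39) (.v 159))) (.mul (.k 42) (.v 172))) (.mul (.k
    43) (.v 180))) (.mul (.k 44) (.v 188)),
.sub (.sub (.q 0 1) (.mul (.k 36) (.v 189))) (.mul (.k 37) (.v 190)),
.sub (.sub (.sub (.sub (.sub (.sub (.sub (.q 0 1) (.mul (.k 45) (.v 139))) (.mul (.k 46) (.v
    147))) (.mul (.k 49) (.v 160))) (.mul (.k 50) (.v 164))) (.mul (.k 51) (.v 167))) (.mul (.k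
    52) (.v 173))) (.mul (.k 53) (.v 181)),
.sub (.sub (.sub (.sub (.sub (.sub (.sub (.q 0 1) (.mul (.k 45) (.v 140))) (.mul (.k 46) (.v
    148))) (.mul (.k 48) (.v 156))) (.mul (.k 49) (.v 161))) (.mul (.k 51) (.v 168))) (.mul (.k
    52) (.v 174))) (.mul (.k 53) (.v 182)),
.sub (.sub (.sub (.sub (.sub (.sub (.sub (.q 0 1) (.mul (.k 45) (.v 141))) (.mul (.k 46) (.v
    149))) (.mul (.k 47) (.v 153))) (.mul (.k 48) (.v 157))) (.mul (.k 51) (.v 169))) (.mul (.k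
    52) (.v 175))) (.mul (.k 53) (.v 183)),
.sub (.sub (.sub (.sub (.sub (.q 0 1) (.mul (.k 45) (.v 142))) (.mul (.k 46) (.v 150))) (.mul (.k
    47) (.v 154))) (.mul (.k 52) (.v 176))) (.mul (.k 53) (.v 184)),
.sub (.sub (.sub (.sub (.q 0 1) (.mul (.k 45) (.v 143))) (.mul (.k 50) (.v 165))) (.mul (.k 52)
    (.v 177))) (.mul (.k 53) (.v 185)),
.sub (.sub (.sub (.sub (.sub (.sub (.q 1 1) (.mul (.k 45) (.v 144))) (.mul (.k 49) (.v 162)))
    (.mul (.k 50) (.v 166))) (.mul (.k 51) (.v 170))) (.mul (.k 52) (.v 178))) (.mul (.k 53) (.v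
    186)),
.sub (.sub (.sub (.sub (.sub (.sub (.sub (.q 0 1) (.mul (.k 45) (.v 145))) (.mul (.k 46) (.v
    151))) (.mul (.k 48) (.v 158))) (.mul (.k 49) (.v 163))) (.mul (.k 51) (.v 171))) (.mul (.k
    52) (.v 179))) (.mul (.k 53) (.v 187)),
.sub (.sub (.sub (.sub (.sub (.sub (.sub (.q 0 1) (.mul (.k 45) (.v 146))) (.mul (.k 46) (.v
    152))) (.mul (.k 47) (.v 155))) (.mul (.k 48) (.v 159))) (.mul (.k 51) (.v 172))) (.mul (.k
    52) (.v 180))) (.mul (.k 53) (.v 188)),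
.sub (.sub (.q 0 1) (.mul (.k 45) (.v 189))) (.mul (.k 46) (.v 190)),
.sub (.sub (.sub (.sub (.sub (.sub (.sub (.q 0 1) (.mul (.k 54) (.v 139))) (.mul (.k 55) (.v
    147))) (.mul (.k 58) (.v 160))) (.mul (.k 59) (.v 164))) (.mul (.k 60) (.v 167))) (.mul (.k
    61) (.v 173))) (.mul (.k 62) (.v 181)),
.sub (.sub (.sub (.sub (.sub (.sub (.sub (.q 0 1) (.mul (.k 54) (.v 140))) (.mul (.k 55) (.v
    148))) (.mul (.k 57) (.v 156))) (.mul (.k 58) (.v 161))) (.mul (.k 60) (.v 168))) (.mul (.k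
    61) (.v 174))) (.mul (.k 62) (.v 182)),
.sub (.sub (.sub (.sub (.sub (.sub (.sub (.q 0 1) (.mul (.k 54) (.v 141))) (.mul (.k 55) (.v
    149))) (.mul (.k 56) (.v 153))) (.mul (.k 57) (.v 157))) (.mul (.k 60) (.v 169))) (.mul (.k
    61) (.v 175))) (.mul (.k 62) (.v 183)),
.sub (.sub (.sub (.sub (.sub (.q 0 1) (.mul (.k 54) (.v 142))) (.mul (.k 55) (.v 150))) (.mul (.k
    56) (.v 154))) (.mul (.k 61) (.v 176))) (.mul (.k 62) (.v 184)),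
.sub (.sub (.sub (.sub (.q 0 1) (.mul (.k 54) (.v 143))) (.mul (.k 59) (.v 165))) (.mul (.k 61)
    (.v 177))) (.mul (.k 62) (.v 185)),
.sub (.sub (.sub (.sub (.sub (.sub (.q 0 1) (.mul (.k 54) (.v 144))) (.mul (.k 58) (.v 162)))
    (.mul (.k 59) (.v 166))) (.mul (.k 60) (.v 170))) (.mul (.k 61) (.v 178))) (.mul (.k 62) (.v
    186)),
.sub (.sub (.sub (.sub (.sub (.sub (.sub (.q 1 1) (.mul (.k 54) (.v 145))) (.mul (.k 55) (.v
    151))) (.mul (.k 57) (.v 158))) (.mul (.k 58) (.v 163))) (.mul (.k 60) (.v 171))) (.mul (.k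
    61) (.v 179))) (.mul (.k 62) (.v 187)),
.sub (.sub (.sub (.sub (.sub (.sub (.sub (.q 0 1) (.mul (.k 54) (.v 146))) (.mul (.k 55) (.v
    152))) (.mul (.k 56) (.v 155))) (.mul (.k 57) (.v 159))) (.mul (.k 60) (.v 172))) (.mul (.k
    61) (.v 180))) (.mul (.k 62) (.v 188)),
.sub (.sub (.q 0 1) (.mul (.k 54) (.v 189))) (.mul (.k 55) (.v 190)),
.sub (.sub (.sub (.sub (.sub (.sub (.sub (.q 0 1) (.mul (.k 63) (.v 139))) (.mul (.k 64) (.v
    147))) (.mul (.k 67) (.v 160))) (.mul (.k 68) (.v 164))) (.mul (.k 69) (.v 167))) (.mul (.k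
    70) (.v 173))) (.mul (.k 71) (.v 181)),
.sub (.sub (.sub (.sub (.sub (.sub (.sub (.q 0 1) (.mul (.k 63) (.v 140))) (.mul (.k 64) (.v
    148))) (.mul (.k 66) (.v 156))) (.mul (.k 67) (.v 161))) (.mul (.k 69) (.v 168))) (.mul (.k
    70) (.v 174))) (.mul (.k 71) (.v 182)),
.sub (.sub (.sub (.sub (.sub (.sub (.sub (.q 0 1) (.mul (.k 63) (.v 141))) (.mul (.k 64) (.v
    149))) (.mul (.k 65) (.v 153))) (.mul (.k 66) (.v 157))) (.mul (.k 69) (.v 169))) (.mul (.k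
    70) (.v 175))) (.mul (.k 71) (.v 183)),
.sub (.sub (.sub (.sub (.sub (.q 0 1) (.mul (.k 63) (.v 142))) (.mul (.k 64) (.v 150))) (.mul (.k
    65) (.v 154))) (.mul (.k 70) (.v 176))) (.mul (.k 71) (.v 184)),
.sub (.sub (.sub (.sub (.q 0 1) (.mul (.k 63) (.v 143))) (.mul (.k 68) (.v 165))) (.mul (.k 70)
    (.v 177))) (.mul (.k 71) (.v 185)),
.sub (.sub (.sub (.sub (.sub (.sub (.q 0 1) (.mul (.k 63) (.v 144))) (.mul (.k 67) (.v 162)))
    (.mul (.k 68) (.v 166))) (.mul (.k 69) (.v 170))) (.mul (.k 70) (.v 178))) (.mul (.k 71) (.v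
    186)),
.sub (.sub (.sub (.sub (.sub (.sub (.sub (.q 0 1) (.mul (.k 63) (.v 145))) (.mul (.k 64) (.v
    151))) (.mul (.k 66) (.v 158))) (.mul (.k 67) (.v 163))) (.mul (.k 69) (.v 171))) (.mul (.k
    70) (.v 179))) (.mul (.k 71) (.v 187)),
.sub (.sub (.sub (.sub (.sub (.sub (.sub (.q 1 1) (.mul (.k 63) (.v 146))) (.mul (.k 64) (.v
    152))) (.mul (.k 65) (.v 155))) (.mul (.k 66) (.v 159))) (.mul (.k 69) (.v 172))) (.mul (.k
    70) (.v 180))) (.mul (.k 71) (.v 188)),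
.sub (.sub (.q 0 1) (.mul (.k 63) (.v 189))) (.mul (.k 64) (.v 190)),
.sub (.sub (.sub (.sub (.sub (.sub (.sub (.q 0 1) (.mul (.k 72) (.v 139))) (.mul (.k 73) (.v
    147))) (.mul (.k 76) (.v 160))) (.mul (.k 77) (.v 164))) (.mul (.k 78) (.v 167))) (.mul (.k
    79) (.v 173))) (.mul (.k 80) (.v 181)),
.sub (.sub (.sub (.sub (.sub (.sub (.sub (.q 0 1) (.mul (.k 72) (.v 140))) (.mul (.k 73) (.v
    148))) (.mul (.k 75) (.v 156))) (.mul (.k 76) (.v 161))) (.mul (.k 78) (.v 168))) (.mul (.k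
    79) (.v 174))) (.mul (.k 80) (.v 182)),
.sub (.sub (.sub (.sub (.sub (.sub (.sub (.q 0 1) (.mul (.k 72) (.v 141))) (.mul (.k 73) (.v
    149))) (.mul (.k 74) (.v 153))) (.mul (.k 75) (.v 157))) (.mul (.k 78) (.v 169))) (.mul (.k
    79) (.v 175))) (.mul (.k 80) (.v 183)),
.sub (.sub (.sub (.sub (.sub (.q 0 1) (.mul (.k 72) (.v 142))) (.mul (.k 73) (.v 150))) (.mul (.k
    74) (.v 154))) (.mul (.k 79) (.v 176))) (.mul (.k 80) (.v 184)),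
.sub (.sub (.sub (.sub (.q 0 1) (.mul (.k 72) (.v 143))) (.mul (.k 77) (.v 165))) (.mul (.k 79)
    (.v 177))) (.mul (.k 80) (.v 185)),
.sub (.sub (.sub (.sub (.sub (.sub (.q 0 1) (.mul (.k 72) (.v 144))) (.mul (.k 76) (.v 162)))
    (.mul (.k 77) (.v 166))) (.mul (.k 78) (.v 170))) (.mul (.k 79) (.v 178))) (.mul (.k 80) (.v
    186)),
.sub (.sub (.sub (.sub (.sub (.sub (.sub (.q 0 1) (.mul (.k 72) (.v 145))) (.mul (.k 73) (.v
    151))) (.mul (.k 75) (.v 158))) (.mul (.k 76) (.v 163))) (.mul (.k 78) (.v 171))) (.mul (.k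
    79) (.v 179))) (.mul (.k 80) (.v 187)),
.sub (.sub (.sub (.sub (.sub (.sub (.sub (.q 0 1) (.mul (.k 72) (.v 146))) (.mul (.k 73) (.v
    152))) (.mul (.k 74) (.v 155))) (.mul (.k 75) (.v 159))) (.mul (.k 78) (.v 172))) (.mul (.k
    79) (.v 180))) (.mul (.k 80) (.v 188)),
.sub (.sub (.q 1 1) (.mul (.k 72) (.v 189))) (.mul (.k 73) (.v 190))]

/-- the Newton map -/
def fsN : List Ex := [
.sub (.v 1) (.add (.add (.add (.add (.add (.add (.add (.add (.mul (.k 0) (.v 130)) (.mul (.k 1)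
    (.v 131))) (.mul (.k 2) (.v 132))) (.mul (.k 3) (.v 133))) (.mul (.k 4) (.v 134))) (.mul (.k
    5) (.v 135))) (.mul (.k 6) (.v 136))) (.mul (.k 7) (.v 137))) (.mul (.k 8) (.v 138))),
.sub (.v 2) (.add (.add (.add (.add (.add (.add (.add (.add (.mul (.k 9) (.v 130)) (.mul (.k 10)
    (.v 131))) (.mul (.k 11) (.v 132))) (.mul (.k 12) (.v 133))) (.mul (.k 13) (.v 134))) (.mul
    (.k 14) (.v 135))) (.mul (.k 15) (.v 136))) (.mul (.k 16) (.v 137))) (.mul (.k 17) (.v 138))),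
.sub (.v 3) (.add (.add (.add (.add (.add (.add (.add (.add (.mul (.k 18) (.v 130)) (.mul (.k 19)
    (.v 131))) (.mul (.k 20) (.v 132))) (.mul (.k 21) (.v 133))) (.mul (.k 22) (.v 134))) (.mul
    (.k 23) (.v 135))) (.mul (.k 24) (.v 136))) (.mul (.k 25) (.v 137))) (.mul (.k 26) (.v 138))),
.sub (.v 4) (.add (.add (.add (.add (.add (.add (.add (.add (.mul (.k 27) (.v 130)) (.mul (.k 28)
    (.v 131))) (.mul (.k 29) (.v 132))) (.mul (.k 30) (.v 133))) (.mul (.k 31) (.v 134))) (.mul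
    (.k 32) (.v 135))) (.mul (.k 33) (.v 136))) (.mul (.k 34) (.v 137))) (.mul (.k 35) (.v 138))),
.sub (.v 5) (.add (.add (.add (.add (.add (.add (.add (.add (.mul (.k 36) (.v 130)) (.mul (.k 37)
    (.v 131))) (.mul (.k 38) (.v 132))) (.mul (.k 39) (.v 133))) (.mul (.k 40) (.v 134))) (.mul
    (.k 41) (.v 135))) (.mul (.k 42) (.v 136))) (.mul (.k 43) (.v 137))) (.mul (.k 44) (.v 138))),
.sub (.v 6) (.add (.add (.add (.add (.add (.add (.add (.add (.mul (.k 45) (.v 130)) (.mul (.k 46)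
    (.v 131))) (.mul (.k 47) (.v 132))) (.mul (.k 48) (.v 133))) (.mul (.k 49) (.v 134))) (.mul
    (.k 50) (.v 135))) (.mul (.k 51) (.v 136))) (.mul (.k 52) (.v 137))) (.mul (.k 53) (.v 138))),
.sub (.v 7) (.add (.add (.add (.add (.add (.add (.add (.add (.mul (.k 54) (.v 130)) (.mul (.k 55)
    (.v 131))) (.mul (.k 56) (.v 132))) (.mul (.k 57) (.v 133))) (.mul (.k 58) (.v 134))) (.mul
    (.k 59) (.v 135))) (.mul (.k 60) (.v 136))) (.mul (.k 61) (.v 137))) (.mul (.k 62) (.v 138))),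
.sub (.v 8) (.add (.add (.add (.add (.add (.add (.add (.add (.mul (.k 63) (.v 130)) (.mul (.k 64)
    (.v 131))) (.mul (.k 65) (.v 132))) (.mul (.k 66) (.v 133))) (.mul (.k 67) (.v 134))) (.mul
    (.k 68) (.v 135))) (.mul (.k 69) (.v 136))) (.mul (.k 70) (.v 137))) (.mul (.k 71) (.v 138))),
.sub (.v 9) (.add (.add (.add (.add (.add (.add (.add (.add (.mul (.k 72) (.v 130)) (.mul (.k 73)
    (.v 131))) (.mul (.k 74) (.v 132))) (.mul (.k 75) (.v 133))) (.mul (.k 76) (.v 134))) (.mul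
    (.k 77) (.v 135))) (.mul (.k 78) (.v 136))) (.mul (.k 79) (.v 137))) (.mul (.k 80) (.v 138)))]

/-- interior of the cube, Frobenius norm below one, positive denominator -/
def csN : List Ex := [
.sub (.q 1 1) (.v 1),
.sub (.q 1 1) (.v 2),
.sub (.q 1 1) (.v 3),
.sub (.q 1 1) (.v 4),
.sub (.q 1 1) (.v 5),
.sub (.q 1 1) (.v 6),
.sub (.q 1 1) (.v 7),
.sub (.q 1 1) (.v 8),
.sub (.q 1 1) (.v 9),
.add (.q 1 1) (.v 1),
.add (.q 1 1) (.v 2),
.add (.q 1 1) (.v 3),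
.add (.q 1 1) (.v 4),
.add (.q 1 1) (.v 5),
.add (.q 1 1) (.v 6),
.add (.q 1 1) (.v 7),
.add (.q 1 1) (.v 8),
.add (.q 1 1) (.v 9),
.sub (.q 1 1) (.add (.add (.add (.add (.add (.add (.add (.add (.add (.add (.add (.add (.add (.add
    (.add (.add (.add (.add (.add (.add (.add (.add (.add (.add (.add (.add (.add (.add (.add
    (.add (.add (.add (.add (.add (.add (.add (.add (.add (.add (.add (.add (.add (.add (.add
    (.add (.add (.add (.add (.add (.add (.add (.add (.add (.add (.add (.add (.add (.add (.add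
    (.add (.add (.add (.add (.add (.add (.add (.add (.add (.add (.add (.add (.add (.add (.add
    (.add (.add (.add (.add (.add (.add (.mul (.v 193) (.v 193)) (.mul (.v 194) (.v 194))) (.mul
    (.v 195) (.v 195))) (.mul (.v 196) (.v 196))) (.mul (.v 197) (.v 197))) (.mul (.v 198) (.v
    198))) (.mul (.v 199) (.v 199))) (.mul (.v 200) (.v 200))) (.mul (.v 201) (.v 201))) (.mul
    (.v 202) (.v 202))) (.mul (.v 203) (.v 203))) (.mul (.v 204) (.v 204))) (.mul (.v 205) (.v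
    205))) (.mul (.v 206) (.v 206))) (.mul (.v 207) (.v 207))) (.mul (.v 208) (.v 208))) (.mul
    (.v 209) (.v 209))) (.mul (.v 210) (.v 210))) (.mul (.v 211) (.v 211))) (.mul (.v 212) (.v
    212))) (.mul (.v 213) (.v 213))) (.mul (.v 214) (.v 214))) (.mul (.v 215) (.v 215))) (.mul
    (.v 216) (.v 216))) (.mul (.v 217) (.v 217))) (.mul (.v 218) (.v 218))) (.mul (.v 219) (.v
    219))) (.mul (.v 220) (.v 220))) (.mul (.v 221) (.v 221))) (.mul (.v 222) (.v 222))) (.mul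
    (.v 223) (.v 223))) (.mul (.v 224) (.v 224))) (.mul (.v 225) (.v 225))) (.mul (.v 226) (.v
    226))) (.mul (.v 227) (.v 227))) (.mul (.v 228) (.v 228))) (.mul (.v 229) (.v 229))) (.mul
    (.v 230) (.v 230))) (.mul (.v 231) (.v 231))) (.mul (.v 232) (.v 232))) (.mul (.v 233) (.v
    233))) (.mul (.v 234) (.v 234))) (.mul (.v 235) (.v 235))) (.mul (.v 236) (.v 236))) (.mul
    (.v 237) (.v 237))) (.mul (.v 238) (.v 238))) (.mul (.v 239) (.v 239))) (.mul (.v 240) (.v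
    240))) (.mul (.v 241) (.v 241))) (.mul (.v 242) (.v 242))) (.mul (.v 243) (.v 243))) (.mul
    (.v 244) (.v 244))) (.mul (.v 245) (.v 245))) (.mul (.v 246) (.v 246))) (.mul (.v 247) (.v
    247))) (.mul (.v 248) (.v 248))) (.mul (.v 249) (.v 249))) (.mul (.v 250) (.v 250))) (.mul
    (.v 251) (.v 251))) (.mul (.v 252) (.v 252))) (.mul (.v 253) (.v 253))) (.mul (.v 254) (.v
    254))) (.mul (.v 255) (.v 255))) (.mul (.v 256) (.v 256))) (.mul (.v 257) (.v 257))) (.mul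
    (.v 258) (.v 258))) (.mul (.v 259) (.v 259))) (.mul (.v 260) (.v 260))) (.mul (.v 261) (.v
    261))) (.mul (.v 262) (.v 262))) (.mul (.v 263) (.v 263))) (.mul (.v 264) (.v 264))) (.mul
    (.v 265) (.v 265))) (.mul (.v 266) (.v 266))) (.mul (.v 267) (.v 267))) (.mul (.v 268) (.v
    268))) (.mul (.v 269) (.v 269))) (.mul (.v 270) (.v 270))) (.mul (.v 271) (.v 271))) (.mul
    (.v 272) (.v 272))) (.mul (.v 273) (.v 273))),
.v 192]

def dsN : List Ex := dsX ++ dsG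

def dsA : List Ex := dsN ++ dsJ

/-- the check for one interval of `M` -/
noncomputable def chkN (m0 : Int) (dl : Nat) (Kl : List Int) : Bool :=
  go m0 dl Kl 9 2 dsN fsN [(dsA ++ dsM, csN)]

end Pool.Agent.MP_e5b4ec_an.Na
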