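import Pool.Agent.MP_e5b4ec_an.Na.Sta
import Pool.Agent.MP_e5b4ec_an.Na.Ka
import Pool.Agent.MP_e5b4ec_an.Na.Kb
import Pool.Agent.MP_e5b4ec_an.Na.Cont
import Pool.Agent.MP_e5b4ec_an.Sm.Fin

/-! The continuation from `M = 1.27` to `M = 1.00001` and the contradiction there. -/

set_option maxRecDepth 20000

open Real Set Filter Topology

namespace Pool.Agent.MP_e5b4ec_an.Na

open Mid

theorem cover {M : ℝ} (h1 : 1 ≤ M) (h2 : M ≤ 1273 / 1000) : Ok M := by
  rcases le_total M (5039 / 5000) with h | h1
  · exact ok_of ck0 (by push_cast; linarith) (by push_cast; linarith)
  rcases le_total M (2539 / 2500) with h | h1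
  · exact ok_of ck1 (by push_cast; linarith) (by push_cast; linarith)
  rcases le_total M (5117 / 5000) with h | h1
  · exact ok_of ck2 (by push_cast; linarith) (by push_cast; linarith)
  rcases le_total M (1289 / 1250) with h | h1
  · exact ok_of ck3 (by push_cast; linarith) (by push_cast; linarith)
  rcases le_total M (1039 / 1000) with h | h1
  · exact ok_of ck4 (by push_cast; linarith) (by push_cast; linarith)
  rcases le_total M (2617 / 2500) with h | h1
  · exact ok_of ck5 (by push_cast; linarith) (by push_cast; linarith)
  rcases le_total M (5273 / 5000) with h | h1
  · exact ok_of ck6 (by push_cast; linarith) (by push_cast; linarith)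
  rcases le_total M (664 / 625) with h | h1
  · exact ok_of ck7 (by push_cast; linarith) (by push_cast; linarith)
  rcases le_total M (5351 / 5000) with h | h1
  · exact ok_of ck8 (by push_cast; linarith) (by push_cast; linarith)
  rcases le_total M (539 / 500) with h | h1
  · exact ok_of ck9 (by push_cast; linarith) (by push_cast; linarith)
  rcases le_total M (5429 / 5000) with h | h1
  · exact ok_of ck10 (by push_cast; linarith) (by push_cast; linarith)
  rcases le_total M (1367 / 1250) with h | h1
  · exact ok_of ck11 (by push_cast; linarith) (by push_cast; linarith)
  rcases le_total M (5507 / 5000) with h | h1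
  · exact ok_of ck12 (by push_cast; linarith) (by push_cast; linarith)
  rcases le_total M (2773 / 2500) with h | h1
  · exact ok_of ck13 (by push_cast; linarith) (by push_cast; linarith)
  rcases le_total M (1117 / 1000) with h | h1
  · exact ok_of ck14 (by push_cast; linarith) (by push_cast; linarith)
  rcases le_total M (703 / 625) with h | h1
  · exact ok_of ck15 (by push_cast; linarith) (by push_cast; linarith)
  rcases le_total M (5663 / 5000) with h | h1
  · exact ok_of ck16 (by push_cast; linarith) (by push_cast; linarith)
  rcases le_total M (2851 / 2500) with h | h1
  · exact ok_of ck17 (by push_cast; linarith) (by push_cast; linarith)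
  rcases le_total M (5741 / 5000) with h | h1
  · exact ok_of ck18 (by push_cast; linarith) (by push_cast; linarith)
  rcases le_total M (289 / 250) with h | h1
  · exact ok_of ck19 (by push_cast; linarith) (by push_cast; linarith)
  rcases le_total M (5819 / 5000) with h | h1
  · exact ok_of ck20 (by push_cast; linarith) (by push_cast; linarith)
  rcases le_total M (2929 / 2500) with h | h1
  · exact ok_of ck21 (by push_cast; linarith) (by push_cast; linarith)
  rcases le_total M (5897 / 5000) with h | h1
  · exact ok_of ck22 (by push_cast; linarith) (by push_cast; linarith)
  rcases le_total M (742 / 625) with h | h1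
  · exact ok_of ck23 (by push_cast; linarith) (by push_cast; linarith)
  rcases le_total M (239 / 200) with h | h1
  · exact ok_of ck24 (by push_cast; linarith) (by push_cast; linarith)
  rcases le_total M (3007 / 2500) with h | h1
  · exact ok_of ck25 (by push_cast; linarith) (by push_cast; linarith)
  rcases le_total M (6053 / 5000) with h | h1
  · exact ok_of ck26 (by push_cast; linarith) (by push_cast; linarith)
  rcases le_total M (1523 / 1250) with h | h1
  · exact ok_of ck27 (by push_cast; linarith) (by push_cast; linarith)
  rcases le_total M (6131 / 5000) with h | h1
  · exact ok_of ck28 (by push_cast; linarith) (by push_cast; linarith)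
  rcases le_total M (617 / 500) with h | h1
  · exact ok_of ck29 (by push_cast; linarith) (by push_cast; linarith)
  rcases le_total M (6209 / 5000) with h | h1
  · exact ok_of ck30 (by push_cast; linarith) (by push_cast; linarith)
  rcases le_total M (781 / 625) with h | h1
  · exact ok_of ck31 (by push_cast; linarith) (by push_cast; linarith)
  rcases le_total M (6287 / 5000) with h | h1
  · exact ok_of ck32 (by push_cast; linarith) (by push_cast; linarith)
  rcases le_total M (3163 / 2500) with h | h1
  · exact ok_of ck33 (by push_cast; linarith) (by push_cast; linarith)
  exact ok_of ck34 (by push_cast; linarith) (by push_cast; linarith)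

def csE : List Ex := [
.sub (.add (.v 191) (.v 191)) (.mul (.q 3653 5000) (.mul (.add (.q 1 1) (.mul (.q 13 1) (.sub (.v
    0) (.q 1 1)))) (.v 192)))]

def csT : List Ex := [
.sub (.q 3653 5000) (.mul (.mul (.q 2 1) (.inv .pi)) (.add (.sub (.add (.q 1 2) (.sin (.add (.mul
    (.q 1 6) .pi) (.mul (.q 2 1) (.v 0))))) (.cos (.v 0))) (.cos (.mul (.q 3 1) (.v 0)))))]

theorem ckE : ∃ Kl, go 1152933033821893044 2 Kl 9 2 dsN fsN [(dsA, csE)] = true := ⟨[
    -352426389451641192448, 401534864064373850112, -354016880343679893504, 253875231221835530240,
    3476438024224490651648, -5694984709773922926592, 3225802564487963738112,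
    -9141703744265286320128, -17971404633190040600576, 295538077862713032704,
    -336719512137257451520, 1939325679171193536512, 5389195042916957945856,
    -27045934675783086768128, -6522427440272598106112, -6703770583315679019008,
    8334570466348917325824, -16784434623711027396608, 2515078722877118218240,
    -2865539651196399124480, 9941069875628495339520, -18972900694353474748416,
    -19906924174759224672256, -7732005173639322271744, -830364522037055324160,
    74455088630916557307904, -6335651365831666827264, 3899098019782092914688,
    -4442413622268488843264, -37937106863649156235264, 17954261434586953154560,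
    35774355657195830378496, 858560224548635672576, 5135395375986177474560,
    -13027122055463999373312, -9822088457845378908160, -1857296121013754134528,
    2116099043090756272128, 3214142219459033038848, 2741978901293519863808, 23905462110468150657024,
    34625681568323394863104, 2651406199476486930432, 83390049569832014184448,
    -648759868002912829440, -871331261080761139200, 992745974606170292224, 702333721412255875072,
    1063719577103019671552, 10329414227829203140608, -7866761094644521500672,
    3519261296961463517184, 18257934464747799838720, -15220366930573587906560,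
    -337765091290166198272, 384830603144990621696, 3827499937412375642112, 7278600088303805923328,
    -47902364330354498600960, -9352305497559772692480, -7945875994761961144320,
    51305448777091991470080, -11232312933554371690496, 840278895072349519872,
    -957366650193304616960, 9733740596397026050048, -38139781667324946284544,
    -51387749014430422138880, -11207177821620734525440, -4589392982979856302080,
    111114604187897181503488, -2116718685908443594752, -1767125814478761099264,
    -1050425284964657135616, -4873842666830947155968, 16451024880362084892672,
    21404961858107243233280, 1720284410678876045312, 3562859621116402991104,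
    -64666732346261207252992, -9581445921950796873728],
  by decide +kernel⟩

theorem ckT : go 196573116535467409 576460752303425 [] 0 1 [] [] [([], csT)] = true := by decide +kernel

theorem kap_le {θ : ℝ} (h : Sm.Rng θ) : Sm.kap θ < 7306 / 10000 := by
  have := (Sm.pos_of_go ckT (E := fun _ => θ) (by
    rw [abs_le]; push_cast; constructor <;> linarith [h.1, h.2]) trivial).1
  simp only [Ex.ev] at this
  push_cast at this
  rw [show 1 / 6 * π + 2 / 1 * θ = π / 6 + 2 * θ by ring, show 3 / 1 * θ = 3 * θ by ring] at this
  rw [Sm.kap, div_eq_mul_inv 2 π]
  linarith

theorem main : ∃ M : ℝ, 100001 / 100000 ≤ M ∧ M ≤ 127 / 100 ∧ ¬ AnalyticAt ℝ c M := by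
  by_contra hc
  have ha : ∀ M ∈ Icc (100001 / 100000 : ℝ) (127 / 100), AnalyticAt ℝ c M := fun M hM => by
    by_contra h
    exact hc ⟨M, hM.1, hM.2, h⟩
  obtain ⟨z, hz, hG, hH⟩ := sCont (100001 / 100000) (127 / 100) GG
    (fun w => c w.1 * RR w 192 - 2 * (w.1 - 1) * RR w 191) (by norm_num)
    (contDiff_pi.2 fun k => RR_smooth _)
    (fun M hM z => (((ha M hM).comp_of_eq analyticAt_fst rfl).mul
      (RR_smooth 192).contDiffAt.analyticAt).sub
      ((analyticAt_const.mul (analyticAt_fst.sub analyticAt_const)).mul
        (RR_smooth 191).contDiffAt.analyticAt))
    (fun M hM z hz hG => (cover (by linarith [hM.1]) (by linarith [hM.2]) z hz hG).1)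
    (Eventually.frequently (by
      filter_upwards [Ioo_mem_nhdsGT (by norm_num : (127 / 100 : ℝ) < 12702 / 10000)] with M hM
      exact start hM.1.le hM.2.le (cover (by linarith [hM.1]) (by linarith [hM.2]))))
  have h2 := (cover (by norm_num) (by norm_num) z hz hG).2
  obtain ⟨Kl, hK⟩ := ckE
  have h3 := (gp hK (by rw [abs_le]; push_cast; constructor <;> norm_num) hz hG
    (List.mem_singleton.2 rfl) (fun _ _ => rfl) (RR_dfs _ _)).1
  simp only [Ex.ev, RR_zero] at h3
  push_cast at h3
  obtain ⟨θ, hr, -, hθ⟩ := Sm.main
  have h4 := (hθ (100001 / 100000) (by norm_num)).2
  have h5 := kap_le hr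
  have h6 : c (100001 / 100000) ≤ 7306 / 10000 * (1 / 100000) * (1 + 13 / 100000) := by linarith
  have h7 := mul_le_mul_of_nonneg_right h6 h2.le
  simp only at hH
  linarith

end Pool.Agent.MP_e5b4ec_an.Na
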