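import Pool.Agent.MP_e5b4ec_an.Na.Dt

/-! The linear algebra: a small derivative of the Newton map forces injectivity. -/

set_option maxRecDepth 20000

open Finset

namespace Pool.Agent.MP_e5b4ec_an.Na

open Mid

theorem semM {K E F D : ℕ → ℝ} (eM : Dfs K F 193 dsM) (hE : ∀ i, i < 193 → F i = E i)
    (h0 : 0 = E 139 * D 1 + E 140 * D 2 + E 141 * D 3 + E 142 * D 4 + E 143 * D 5 + E 144 * D 6 + E
      145 * D 7 + E 146 * D 8 + E 189 * D 9)
    (h1 : 0 = E 147 * D 1 + E 148 * D 2 + E 149 * D 3 + E 150 * D 4 + E 151 * D 7 + E 152 * D 8 + E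
      190 * D 9)
    (h2 : 0 = E 153 * D 3 + E 154 * D 4 + E 155 * D 8)
    (h3 : 0 = E 156 * D 2 + E 157 * D 3 + E 158 * D 7 + E 159 * D 8)
    (h4 : 0 = E 160 * D 1 + E 161 * D 2 + E 162 * D 6 + E 163 * D 7)
    (h5 : 0 = E 164 * D 1 + E 165 * D 5 + E 166 * D 6)
    (h6 : 0 = E 167 * D 1 + E 168 * D 2 + E 169 * D 3 + E 170 * D 6 + E 171 * D 7 + E 172 * D 8)
    (h7 : 0 = E 173 * D 1 + E 174 * D 2 + E 175 * D 3 + E 176 * D 4 + E 177 * D 5 + E 178 * D 6 + E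
      179 * D 7 + E 180 * D 8)
    (h8 : 0 = E 181 * D 1 + E 182 * D 2 + E 183 * D 3 + E 184 * D 4 + E 185 * D 5 + E 186 * D 6 + E
      187 * D 7 + E 188 * D 8)
    (i : ℕ) (hi : i < 9) : D (i + 1) = ∑ j ∈ range 9, F (193 + 9 * i + j) * D (j + 1) := by
  simp only [dsM, Dfs, Ex.ev, Nat.reduceAdd] at eM
  simp (disch := omega) only [hE] at eM
  obtain ⟨b0, b1, b2, b3, b4, b5, b6, b7, b8, b9, b10, b11, b12, b13, b14, b15, b16, b17, b18, b19,
    b20, b21, b22, b23, b24, b25, b26, b27, b28, b29, b30, b31, b32, b33, b34, b35, b36, b37,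
    b38, b39, b40, b41, b42, b43, b44, b45, b46, b47, b48, b49, b50, b51, b52, b53, b54, b55,
    b56, b57, b58, b59, b60, b61, b62, b63, b64, b65, b66, b67, b68, b69, b70, b71, b72, b73,
    b74, b75, b76, b77, b78, b79, b80, -⟩ := eM
  simp only [sum_range_succ, sum_range_zero]
  interval_cases i
  · simp only [Nat.reduceAdd, Nat.reduceMul, b0, b1, b2, b3, b4, b5, b6, b7, b8]
    push_cast
    linear_combination - K 0 * h0 - K 1 * h1 - K 2 * h2 - K 3 * h3 - K 4 * h4 - K 5 * h5 - K 6 * h6 -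
      K 7 * h7 - K 8 * h8
  · simp only [Nat.reduceAdd, Nat.reduceMul, b9, b10, b11, b12, b13, b14, b15, b16, b17]
    push_cast
    linear_combination - K 9 * h0 - K 10 * h1 - K 11 * h2 - K 12 * h3 - K 13 * h4 - K 14 * h5 - K 15
      * h6 - K 16 * h7 - K 17 * h8
  · simp only [Nat.reduceAdd, Nat.reduceMul, b18, b19, b20, b21, b22, b23, b24, b25, b26]
    push_cast
    linear_combination - K 18 * h0 - K 19 * h1 - K 20 * h2 - K 21 * h3 - K 22 * h4 - K 23 * h5 - K 24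
      * h6 - K 25 * h7 - K 26 * h8
  · simp only [Nat.reduceAdd, Nat.reduceMul, b27, b28, b29, b30, b31, b32, b33, b34, b35]
    push_cast
    linear_combination - K 27 * h0 - K 28 * h1 - K 29 * h2 - K 30 * h3 - K 31 * h4 - K 32 * h5 - K 33
      * h6 - K 34 * h7 - K 35 * h8
  · simp only [Nat.reduceAdd, Nat.reduceMul, b36, b37, b38, b39, b40, b41, b42, b43, b44]
    push_cast
    linear_combination - K 36 * h0 - K 37 * h1 - K 38 * h2 - K 39 * h3 - K 40 * h4 - K 41 * h5 - K 42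
      * h6 - K 43 * h7 - K 44 * h8
  · simp only [Nat.reduceAdd, Nat.reduceMul, b45, b46, b47, b48, b49, b50, b51, b52, b53]
    push_cast
    linear_combination - K 45 * h0 - K 46 * h1 - K 47 * h2 - K 48 * h3 - K 49 * h4 - K 50 * h5 - K 51
      * h6 - K 52 * h7 - K 53 * h8
  · simp only [Nat.reduceAdd, Nat.reduceMul, b54, b55, b56, b57, b58, b59, b60, b61, b62]
    push_cast
    linear_combination - K 54 * h0 - K 55 * h1 - K 56 * h2 - K 57 * h3 - K 58 * h4 - K 59 * h5 - K 60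
      * h6 - K 61 * h7 - K 62 * h8
  · simp only [Nat.reduceAdd, Nat.reduceMul, b63, b64, b65, b66, b67, b68, b69, b70, b71]
    push_cast
    linear_combination - K 63 * h0 - K 64 * h1 - K 65 * h2 - K 66 * h3 - K 67 * h4 - K 68 * h5 - K 69
      * h6 - K 70 * h7 - K 71 * h8
  · simp only [Nat.reduceAdd, Nat.reduceMul, b72, b73, b74, b75, b76, b77, b78, b79, b80]
    push_cast
    linear_combination - K 72 * h0 - K 73 * h1 - K 74 * h2 - K 75 * h3 - K 76 * h4 - K 77 * h5 - K 78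
      * h6 - K 79 * h7 - K 80 * h8

theorem zero_of {B u : ℕ → ℝ}
    (h : ∀ i, i < 9 → u (i + 1) = ∑ j ∈ range 9, B (193 + 9 * i + j) * u (j + 1))
    (hB : ∑ i ∈ range 9, ∑ j ∈ range 9, B (193 + 9 * i + j) ^ 2 < 1) (i : ℕ) (hi : i < 9) :
    u (i + 1) = 0 := by
  have h1 : ∑ i ∈ range 9, u (i + 1) ^ 2 ≤
      (∑ i ∈ range 9, ∑ j ∈ range 9, B (193 + 9 * i + j) ^ 2) * ∑ j ∈ range 9, u (j + 1) ^ 2 := by
    rw [sum_mul]
    refine sum_le_sum fun i hi => ?_
    rw [h i (mem_range.1 hi)]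
    exact sum_mul_sq_le_sq_mul_sq _ _ _
  have h2 : u (i + 1) ^ 2 ≤ ∑ i ∈ range 9, u (i + 1) ^ 2 :=
    single_le_sum (f := fun i => u (i + 1) ^ 2) (fun _ _ => sq_nonneg _) (mem_range.2 hi)
  have h3 : 0 ≤ ∑ i ∈ range 9, u (i + 1) ^ 2 := sum_nonneg fun _ _ => sq_nonneg _
  generalize ∑ i ∈ range 9, u (i + 1) ^ 2 = S at *
  have h4 : S ≤ 0 := by nlinarith
  exact pow_eq_zero_iff two_ne_zero |>.1 (le_antisymm (h2.trans h4) (sq_nonneg _))

theorem semC {K E : ℕ → ℝ} (h : Pos K E csN) : (∀ i, i < 9 → |E (i + 1)| < 1) ∧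
    ∑ i ∈ range 9, ∑ j ∈ range 9, E (193 + 9 * i + j) ^ 2 < 1 ∧ 0 < E 192 := by
  simp only [csN, Pos, Ex.ev] at h
  push_cast at h
  obtain ⟨a1, a2, a3, a4, a5, a6, a7, a8, a9, b1, b2, b3, b4, b5, b6, b7, b8, b9, c, d, -⟩ := h
  refine ⟨fun i hi => ?_, ?_, d⟩
  · interval_cases i <;> exact abs_lt.2 ⟨by linarith, by linarith⟩
  · simp only [sum_range_succ, sum_range_zero, Nat.reduceAdd, Nat.reduceMul, sq]
    linarith

theorem fixN {K E : ℕ → ℝ} (h : ∀ k, k < 9 → E (130 + k) = 0) (i : ℕ) (hi : i < 9) :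
    E (i + 1) = (fsN.getD i Ex.pi).ev K E := by
  have h0 := h 0 (by norm_num)
  have h1 := h 1 (by norm_num)
  have h2 := h 2 (by norm_num)
  have h3 := h 3 (by norm_num)
  have h4 := h 4 (by norm_num)
  have h5 := h 5 (by norm_num)
  have h6 := h 6 (by norm_num)
  have h7 := h 7 (by norm_num)
  have h8 := h 8 (by norm_num)
  simp only [Nat.reduceAdd] at h0 h1 h2 h3 h4 h5 h6 h7 h8
  interval_cases i <;>
    simp only [fsN, List.getD_cons_succ, List.getD_cons_zero, Ex.ev, h0, h1, h2, h3, h4, h5, h6,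
      h7, h8, mul_zero, add_zero, sub_zero, Nat.reduceAdd]

end Pool.Agent.MP_e5b4ec_an.Na
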