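import Pool.Agent.MP_e5b4ec_an.Na.Der
import Pool.Agent.MP_e5b4ec_an.Na.Lin
import Pool.Agent.MP_e5b4ec_an.Na.Calc
import Pool.Agent.MP_e5b4ec_an.Mid.AA

/-! One interval of `M`: zeros of the system are interior and nondegenerate. -/

set_option maxRecDepth 20000

open scoped ContDiff

namespace Pool.Agent.MP_e5b4ec_an.Na

open Mid

/-- the start registers: `M` and a point of the cube -/
noncomputable def cb (M : ℝ) (a : Fin 9 → ℝ) (j : ℕ) : ℝ :=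
  if j = 0 then M else if h : j - 1 < 9 then a ⟨j - 1, h⟩ else 0

/-- all registers -/
noncomputable def RR (w : ℝ × (Fin 9 → ℝ)) : ℕ → ℝ := runR (fun _ => 0) dsA 10 (cb w.1 w.2)

/-- the residuals -/
noncomputable def GG (w : ℝ × (Fin 9 → ℝ)) (k : Fin 9) : ℝ := RR w (130 + k)

theorem ptA : dsA.all pt = true := by decide +kernel

theorem ltA : ltAll 10 dsA = true := by decide +kernel

theorem ltM : ltAll 193 dsM = true := by decide +kernel

theorem RR_dfs (K : ℕ → ℝ) (w : ℝ × (Fin 9 → ℝ)) : Dfs K (RR w) 10 dsA :=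
  (sCalc _ dsA 10 ptA).2.2 K _ (runR_dfs _ _ _ _ ltA)

theorem cb_succ (M : ℝ) (a : Fin 9 → ℝ) (i : Fin 9) : cb M a (i + 1) = a i := by simp [cb]

theorem RR_zero (w : ℝ × (Fin 9 → ℝ)) : RR w 0 = w.1 := runR_lt _ _ _ _ 0 (by norm_num)

theorem RR_succ (w : ℝ × (Fin 9 → ℝ)) (i : Fin 9) : RR w (i + 1) = w.2 i :=
  (runR_lt _ _ _ _ _ (by omega)).trans (cb_succ _ _ i)

theorem RR_smooth (i : ℕ) : ContDiff ℝ ω fun w => RR w i := by
  refine (sCalc _ dsA 10 ptA).1 (fun w => cb w.1 w.2) (fun i => ?_) i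
  unfold cb
  split_ifs
  exacts [contDiff_fst, (contDiff_apply ℝ ℝ _).comp contDiff_snd, contDiff_const]

theorem splitA {K E : ℕ → ℝ} (h : Dfs K E 10 dsA) :
    Dfs K E 10 dsN ∧ Dfs K E 10 dsX ∧ Dfs K E 23 dsG ∧ Dfs K E 139 dsJ :=
  have h1 := (dfs_append K dsN dsJ 10).1 h
  have h2 := (dfs_append K dsX dsG 10).1 h1.1
  ⟨h1.1, h2.1, h2.2, h1.2⟩

theorem ddfs_append {K E D : ℕ → ℝ} : ∀ (a b : List Ex) (n : ℕ),
    DDfs K E D n (a ++ b) → DDfs K E D n a ∧ DDfs K E D (n + a.length) b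
  | [], b, n => fun h => ⟨trivial, h⟩
  | e :: a, b, n => fun h => by
    have := ddfs_append a b (n + 1) h.2
    rw [List.length_cons, add_comm a.length, ← add_assoc]
    exact ⟨⟨h.1, this.1⟩, this.2⟩

theorem dfs_congr {K E F : ℕ → ℝ} : ∀ (ds : List Ex) (n : ℕ), ltAll n ds = true →
    (∀ i, i < n + ds.length → F i = E i) → Dfs K E n ds → Dfs K F n ds
  | [], _, _, _, _ => trivial
  | e :: es, n, h, hE, hd => by
    rw [ltAll, Bool.and_eq_true] at h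
    rw [List.length_cons] at hE
    refine ⟨?_, dfs_congr es (n + 1) h.2 (fun i hi => hE i (by omega)) hd.2⟩
    rw [hE n (by omega), hd.1]
    exact ev_congr_One K (fun i hi => (hE i (by omega)).symm) e h.1

theorem gp {m0 : Int} {dl it : Nat} {Kl : List Int} {bs : List (List Ex × List Ex)} {M : ℝ}
    {z : Fin 9 → ℝ} (h : go m0 dl Kl 9 it dsN fsN bs = true)
    (hM : |M * 2 ^ 60 - (m0 : ℝ)| ≤ (dl : ℝ)) (hz : ∀ i, |z i| ≤ 1) (hG : GG (M, z) = 0)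
    {b : List Ex × List Ex} (hb : b ∈ bs) {F : ℕ → ℝ} (hF : ∀ i, i ≤ 9 → F i = RR (M, z) i)
    (hd : Dfs (Kof Kl) F 10 b.1) : Pos (Kof Kl) F b.2 := by
  refine go_pos h (E := RR (M, z)) (by rw [RR_zero]; exact hM) (fun i h1 h2 => ?_)
    (splitA (RR_dfs _ _)).1 (fixN fun k hk => congrFun hG ⟨k, hk⟩) hb hF hd
  obtain ⟨j, rfl⟩ : ∃ j, i = j + 1 := ⟨i - 1, by omega⟩
  rw [RR_succ (M, z) ⟨j, by omega⟩]
  exact hz _

/-- what is proved for one value of `M` -/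
def Ok (M : ℝ) : Prop := ∀ z : Fin 9 → ℝ, (∀ i, |z i| ≤ 1) → GG (M, z) = 0 →
  ((∀ i, |z i| < 1) ∧ ∀ u : Fin 9 → ℝ, HasDerivAt (fun t : ℝ => GG (M, z + t • u)) 0 0 → u = 0) ∧
    0 < RR (M, z) 192

theorem ok_of {m0 : Int} {dl : Nat} {M : ℝ} (h : ∃ Kl, chkN m0 dl Kl = true)
    (h1 : (m0 : ℝ) - dl ≤ M * 2 ^ 60) (h2 : M * 2 ^ 60 ≤ (m0 : ℝ) + dl) : Ok M := by
  obtain ⟨Kl, h⟩ := h
  intro z hz hG
  have hF : ∀ i, i < 193 → runR (Kof Kl) dsM 193 (RR (M, z)) i = RR (M, z) i :=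
    fun i hi => runR_lt _ _ _ _ i hi
  have eM := runR_dfs (Kof Kl) dsM 193 (RR (M, z)) ltM
  generalize runR (Kof Kl) dsM 193 (RR (M, z)) = F at hF eM
  obtain ⟨c1, c2, c3⟩ := semC (gp h (abs_le.2 ⟨by linarith, by linarith⟩) hz hG
    (b := (dsA ++ dsM, csN)) (List.mem_singleton.2 rfl) (F := F) (fun i hi => hF i (by omega))
    ((dfs_append _ dsA dsM 10).2 ⟨dfs_congr dsA 10 ltA hF (RR_dfs _ _), eM⟩))
  refine ⟨⟨fun i => ?_, fun u hu => ?_⟩, hF 192 (by norm_num) ▸ c3⟩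
  · have := c1 i i.2
    rwa [hF _ (by omega), RR_succ] at this
  obtain ⟨D, d1, d2, d3⟩ := (sCalc (fun _ => 0) dsA 10 ptA).2.1 ltA
    (fun t => cb M (z + t • u)) (cb 0 u) fun i => by
      unfold cb
      split_ifs with h0 h9
      · exact hasDerivAt_const _ _
      · simpa using ((hasDerivAt_id (0 : ℝ)).mul_const (u ⟨_, h9⟩)).const_add (z ⟨_, h9⟩)
      · exact hasDerivAt_const _ _
  rw [zero_smul, add_zero] at d3
  have d4 := (ddfs_append dsX dsG 10 (ddfs_append dsN dsJ 10 d3).1)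
  have e := splitA (RR_dfs (fun _ => 0) (M, z))
  have hD : ∀ k, k < 9 → D (130 + k) = 0 := fun k hk =>
    (d1 (130 + k)).unique (hasDerivAt_pi.1 hu ⟨k, hk⟩)
  obtain ⟨g0, g1, g2, g3, g4, g5, g6, g7, g8⟩ :=
    semD e.2.2.1 e.2.2.2 d4.1 d4.2 (d2 0 (by norm_num))
  have := zero_of (semM eM hF ((hD 0 (by norm_num)).symm.trans g0)
    ((hD 1 (by norm_num)).symm.trans g1) ((hD 2 (by norm_num)).symm.trans g2)
    ((hD 3 (by norm_num)).symm.trans g3) ((hD 4 (by norm_num)).symm.trans g4)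
    ((hD 5 (by norm_num)).symm.trans g5) ((hD 6 (by norm_num)).symm.trans g6)
    ((hD 7 (by norm_num)).symm.trans g7) ((hD 8 (by norm_num)).symm.trans g8)) c2
  funext i
  rw [← cb_succ 0 u i, ← d2 _ (by omega)]
  exact this i i.2

end Pool.Agent.MP_e5b4ec_an.Na
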