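import Pool.Agent.MP_e5b4ec_an.Na.Dt
import Pool.Agent.MP_e5b4ec_an.Mid.Stm

/-! Meaning of the residuals, of the numerator and of the denominator. -/

set_option maxRecDepth 20000

open Real

namespace Pool.Agent.MP_e5b4ec_an.Na

open Mid

variable {K E p : ℕ → ℝ} {M s : ℝ}

theorem semF (hM : 1 < M) (h0 : E 0 = M) (h10 : E 10 = M - 9 / 8) (p1 : E 11 = p 1)
    (p2 : E 12 = p 2) (p3 : E 13 = p 3) (p4 : E 14 = p 4) (p8 : E 15 = p 8) (p9 : E 16 = p 9)
    (p10 : E 17 = p 10) (p11 : E 18 = p 11) (hs : s = 1 + (M - 1) * E 19) (p5 : E 20 = p 5)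
    (p6 : E 21 = p 6) (p7 : E 22 = p 7) (e0 : p 0 = 0) (e12 : p 12 = π)
    (eG : Dfs K E 23 dsG) (eJ : Dfs K E 139 dsJ) :
    (M - 1) * E 130 = (M * (M + 1)) ^ 2 * ((M + 1) * cum M s p 6 + cum M s p 2 +
      M * cum M s p 10 - 2 * M * cum M s p 12 - (p 2 + p 10 + 2 * p 6 - 2 * π)) ∧
    (M - 1) * E 131 = (M * (M + 1)) ^ 2 *
      ((M + 1) * (cum M s p 2 - dd M s 2 * p 2) - M * (cum M s p 6 - dd M s 6 * p 6)) ∧
    E 132 = mu p 4 - (M + 1) * mu p 3 ∧ E 133 = M * mu p 5 - (M + 1) * mu p 10 ∧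
    E 134 = M * mu p 1 - mu p 9 ∧ E 135 = M * mu p 7 - (M + 1) * mu p 8 ∧
    E 136 = M * ((M + 1) * mu p 2 - mu p 5) - (M + 1) ^ 2 * ((M + 1) * mu p 1 - mu p 6) ∧
    E 137 = ((-49 / 20) + (-9 / 4) * (M - 9 / 8)) * E 132 + ((2 / 5) + (1 / 4) * (M - 9 / 8)) * E 133
      + ((11 / 20) + (1 / 4) * (M - 9 / 8)) * E 134 + ((1 / 10) + (0) * (M - 9 / 8)) * E 135 +
      ((1 / 20) + (0) * (M - 9 / 8)) * E 136 + M * (M + 1) *
      (nu p 3 + 2 * nu p 4 / (M + 1) + nu p 11 / M - π * (mu p 3 + mu p 11 / M)) ∧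
    E 138 = ((1 / 20) + (0) * (M - 9 / 8)) * E 132 + ((42 / 5) + (15 / 2) * (M - 9 / 8)) * E 133 +
      ((-243 / 20) + (-71 / 4) * (M - 9 / 8)) * E 134 + ((193 / 20) + (13) * (M - 9 / 8)) * E 135
      + ((19 / 10) + (7 / 4) * (M - 9 / 8)) * E 136 + (M * (M + 1)) ^ 2 *
      (((M + 1) * (2 * π * mu p 1 - nu p 1 - nu p 9 / M) / 2 - nu p 6) / M
      - 2 * (nu p 2 - (2 * π * mu p 10 / M - nu p 10 / M - 2 * nu p 5 / (M + 1))) / (M + 1)
      + (2 * π * mu p 8 / M - nu p 8 / M - 2 * nu p 7 / (M + 1)) - nu p 0) ∧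
    (M - 1) * E 191 = (M * (M + 1)) ^ 2 *
      ∑ i ∈ Finset.range 12, dd M s i * (sin (p (i + 1)) - sin (p i)) ∧
    E 192 = (M * (M + 1)) ^ 2 * cum M s p 12 := by
  have hM0 : M ≠ 0 := by linarith
  have hM1 : M + 1 ≠ 0 := by linarith
  simp only [dsG, dsJ, Dfs, Ex.ev, Nat.reduceAdd, h0, h10, p1, p2, p3, p4, p5, p6, p7, p8, p9, p10,
    p11] at eG eJ
  push_cast at eG eJ
  obtain ⟨e23, e24, e25, e26, e27, e28, e29, e30, e31, e32, e33, e34, e35, e36, e37, e38, e39, e40,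
    e41, e42, e43, e44, e45, e46, e47, e48, e49, e50, e51, e52, e53, e54, e55, e56, e57, e58,
    e59, e60, e61, e62, e63, e64, e65, e66, e67, e68, e69, e70, e71, e72, e73, e74, e75, e76,
    e77, e78, e79, e80, e81, e82, e83, e84, e85, e86, e87, e88, e89, e90, e91, e92, e93, e94,
    e95, e96, e97, e98, e99, e100, e101, e102, e103, e104, e105, e106, e107, e108, e109, e110,
    e111, e112, e113, e114, e115, e116, e117, e118, e119, e120, e121, e122, e123, e124, e125,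
    e126, e127, e128, e129, e130, e131, e132, e133, e134, e135, e136, e137, e138, -⟩ := eG
  obtain ⟨-, -, -, -, -, -, -, -, -, -, -, -, -, -, -, -, -, -, -, -, -, -, -, -, -, -, -, -, -, -, -,
    -, -, -, -, -, -, -, -, -, -, -, -, -, -, -, -, -, -, -, -, -, e191, e192, -⟩ := eJ
  simp only [hs, mu, nu, cum, dd, Finset.sum_range_succ, Finset.sum_range_zero, Nat.reduceAdd, e0,
    e12, cos_zero, sin_zero, cos_pi, sin_pi]
  refine ⟨?_, ?_, ?_, ?_, ?_, ?_, ?_, ?_, ?_, ?_, ?_⟩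
  · simp only [e130, e73, e72, e71, e70, e69, e68, e67, e66, e65, e64, e63, e62, e61, e60, e59, e58, e57,
      e56, e55, e54, e53, e51, e50, e49, e48, e47, e46, e45]
    field_simp
    ring
  · simp only [e131, e67, e66, e65, e64, e63, e59, e58, e57, e56, e55, e54, e51, e50, e49, e48, e47, e46,
      e45]
    field_simp
    ring
  · simp only [e132, e76, e75, e74, e27, e26, e25]
    ring
  · simp only [e133, e80, e79, e78, e77, e33, e32, e28, e27]
    ring
  · simp only [e134, e84, e83, e82, e81, e32, e31, e24, e23]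
    ring
  · simp only [e135, e87, e86, e85, e31, e30, e29]
    ring
  · simp only [e136, e93, e92, e91, e90, e89, e88, e29, e28, e27, e25, e24, e23]
    ring
  · simp only [e137, e136, e135, e134, e133, e132, e108, e107, e106, e105, e104, e103, e102, e101, e100,
      e99, e98, e97, e96, e95, e94, e93, e92, e91, e90, e89, e88, e87, e86, e85, e84, e83, e82,
      e81, e80, e79, e78, e77, e76, e75, e74, e44, e38, e37, e36, e33, e32, e31, e30, e29, e28,
      e27, e26, e25, e24, e23]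
    field_simp
    ring
  · simp only [e138, e136, e135, e134, e133, e132, e129, e128, e127, e126, e125, e124, e123, e122, e121,
      e120, e119, e118, e117, e116, e115, e114, e113, e112, e111, e110, e109, e93, e92, e91, e90,
      e89, e88, e87, e86, e85, e84, e83, e82, e81, e80, e79, e78, e77, e76, e75, e74, e44, e43,
      e42, e41, e40, e39, e38, e36, e35, e34, e33, e32, e31, e30, e29, e28, e27, e26, e25, e24,
      e23]
    field_simp
    ring
  · simp only [e191, e62, e61, e60, e59, e58, e57, e56, e55, e54, e51, e50, e49, e48, e47, e46, e45, e44,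
      e43, e42, e41, e40, e39, e38, e37, e36, e35, e34]
    field_simp
    ring
  · simp only [e192, e73, e72, e71, e70, e69, e68, e67, e66, e65, e64, e63, e62, e61, e60, e59, e58, e57,
      e56, e55, e54, e51, e50, e49, e48, e47, e46, e45]
    field_simp
    ring

theorem semG (hM : 1 < M) (h0 : E 0 = M) (h10 : E 10 = M - 9 / 8) (p1 : E 11 = p 1)
    (p2 : E 12 = p 2) (p3 : E 13 = p 3) (p4 : E 14 = p 4) (p8 : E 15 = p 8) (p9 : E 16 = p 9)
    (p10 : E 17 = p 10) (p11 : E 18 = p 11) (hs : s = 1 + (M - 1) * E 19) (p5 : E 20 = p 5)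
    (p6 : E 21 = p 6) (p7 : E 22 = p 7) (hl : Lin M s p) (ht : Trig M p)
    (eG : Dfs K E 23 dsG) (eJ : Dfs K E 139 dsJ) : (∀ k, k < 9 → E (130 + k) = 0) ∧
      (0 < E 192 → val M s p * E 192 - 2 * (M - 1) * E 191 = 0) := by
  obtain ⟨a0, a1, a2, a3, a4, a5, a6, a7, a8, a9, a10⟩ := semF hM h0 h10 p1 p2 p3 p4 p8 p9 p10 p11
    hs p5 p6 p7 hl.e0 hl.e12 eG eJ
  have hM1 : M - 1 ≠ 0 := by linarith
  rw [hl.c1, hl.e6, sub_self, sub_self, sub_self, mul_zero, mul_eq_zero, or_iff_right hM1] at a0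
  rw [hl.c2, sub_self, mul_zero, mul_eq_zero, or_iff_right hM1] at a1
  rw [sub_eq_zero.2 ht.mE] at a2
  rw [sub_eq_zero.2 ht.mC] at a3
  rw [sub_eq_zero.2 ht.mD] at a4
  rw [sub_eq_zero.2 ht.mB] at a5
  rw [sub_eq_zero.2 ht.mA] at a6
  rw [sub_eq_zero.2 ht.qE, a2, a3, a4, a5, a6] at a7
  rw [sub_eq_zero.2 ht.qA, a2, a3, a4, a5, a6] at a8
  simp only [mul_zero, add_zero] at a7 a8
  refine ⟨fun k hk => ?_, fun h => ?_⟩
  · interval_cases k
    exacts [a0, a1, a2, a3, a4, a5, a6, a7, a8]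
  · have hc : cum M s p 12 ≠ 0 := fun hc => by
      rw [a10, hc, mul_zero] at h
      exact lt_irrefl _ h
    rw [mul_assoc, a9, a10, val]
    field_simp
    ring

end Pool.Agent.MP_e5b4ec_an.Na
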