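import Pool.Agent.MP_e5b4ec_an.Na.Iv
import Pool.Agent.MP_e5b4ec_an.Na.Sem
import Pool.Agent.MP_e5b4ec_an.Mid.TaB
import Pool.Agent.MP_e5b4ec_an.Mid.TaK0

/-! The start of the continuation: just above `M = 1.27` the value `c M` comes from a zero of the
system in the cube. -/

set_option maxRecDepth 20000

open Real

namespace Pool.Agent.MP_e5b4ec_an.Na

open Mid

/-- registers 22 to 31 : the cube variables of a point of the wider tube -/
def dsS : List Ex := [
.sub (.v 0) (.q 9 8),
.mul (.q 50000 7) (.sub (.v 10) (.add (.q 1080037 2000000) (.mul (.v 22) (.add (.q (-129587)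
    1000000) (.mul (.v 22) (.add (.q (-10097) 100000) (.mul (.v 22) (.add (.q 1763 5000) (.mul
    (.v 22) (.q (-537) 1000)))))))))),
.mul (.q 12500 1) (.sub (.v 11) (.add (.q 6650603 10000000) (.mul (.v 22) (.add (.q (-135351)
    1000000) (.mul (.v 22) (.add (.q (-2719) 50000) (.mul (.v 22) (.add (.q 1117 5000) (.mul (.v
    22) (.q (-29) 100)))))))))),
.mul (.q 20000 1) (.sub (.v 12) (.add (.q 8833539 10000000) (.mul (.v 22) (.add (.q (-71981)
    500000) (.mul (.v 22) (.add (.q 29 2000) (.mul (.v 22) (.add (.q 549 5000) (.mul (.v 22) (.q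
    (-107) 1000)))))))))),
.mul (.q 100000 1) (.sub (.v 13) (.add (.q 10621153 10000000) (.mul (.v 22) (.add (.q (-14683)
    200000) (.mul (.v 22) (.add (.q (-4017) 100000) (.mul (.v 22) (.add (.q 541 10000) (.mul (.v
    22) (.q (-1) 50)))))))))),
.mul (.q 100000 1) (.sub (.v 17) (.add (.q 20848761 10000000) (.mul (.v 22) (.add (.q (-137913)
    1000000) (.mul (.v 22) (.add (.q 12547 100000) (.mul (.v 22) (.add (.q (-791) 10000) (.mul
    (.v 22) (.q 7 200)))))))))),
.mul (.q 100000 9) (.sub (.v 18) (.add (.q 925223 400000) (.mul (.v 22) (.add (.q (-295901)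
    1000000) (.mul (.v 22) (.add (.q 11647 100000) (.mul (.v 22) (.add (.q 1093 10000) (.mul (.v
    22) (.q (-53) 200)))))))))),
.mul (.q 100000 7) (.sub (.v 19) (.add (.q 24274089 10000000) (.mul (.v 22) (.add (.q (-31729)
    125000) (.mul (.v 22) (.add (.q 1287 10000) (.mul (.v 22) (.add (.q 697 10000) (.mul (.v 22)
    (.q (-167) 1000)))))))))),
.mul (.q 12500 1) (.sub (.v 20) (.add (.q 6517559 2500000) (.mul (.v 22) (.add (.q (-114441)
    500000) (.mul (.v 22) (.add (.q 18703 100000) (.mul (.v 22) (.add (.q 23 625) (.mul (.v 22)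
    (.q (-53) 500)))))))))),
.mul (.q 5000 1) (.sub (.mul (.sub (.v 21) (.q 1 1)) (.inv (.sub (.v 0) (.q 1 1)))) (.add (.q
    (-4403719) 5000000) (.mul (.v 22) (.add (.q 281303 250000) (.mul (.v 22) (.add (.q (-149339)
    100000) (.mul (.v 22) (.add (.q 20239 10000) (.mul (.v 22) (.q (-1239) 500))))))))))]

def csS : List Ex := [
.sub (.q 1 1) (.v 23),
.sub (.q 1 1) (.v 24),
.sub (.q 1 1) (.v 25),
.sub (.q 1 1) (.v 26),
.sub (.q 1 1) (.v 27),
.sub (.q 1 1) (.v 28),
.sub (.q 1 1) (.v 29),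
.sub (.q 1 1) (.v 30),
.sub (.q 1 1) (.v 31),
.add (.q 1 1) (.v 23),
.add (.q 1 1) (.v 24),
.add (.q 1 1) (.v 25),
.add (.q 1 1) (.v 26),
.add (.q 1 1) (.v 27),
.add (.q 1 1) (.v 28),
.add (.q 1 1) (.v 29),
.add (.q 1 1) (.v 30),
.add (.q 1 1) (.v 31)]

def kS : List Int := [
    -44196171253547008, 649883732550877184, 44487424797048832, 94688218028441600, -3421897081487360,
    -12976303087026176, 24726094510817280, 11686515818102784, 96970042884751360,
    -1376683313544036352, 348609776944414720, 174141465503465472, 282673394992807936,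
    -545985953588576256, 485311977095168, -50227638924476416, -57170288202219520, 14476910973157376,
    7231668364509184, 11738734030487552, -22673459846840320, 47878008345722880,
    470650558504903901184, 466765631496134852608, 348521335032616321024, 683695941911314432000,
    -262714951393741897728, -596892199119642165248, 1356970517311667568640, -461380004867175612416,
    920194552093655171072, 578858414745914966016, -2241452611109407162368, -380295627072318996480,
    -301688969154437054464, -564250658985654353920, -1660088131128293064704, -782678249228476612608,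
    -3636846727195940356096, -2322285796112017129472, -1733988304565424881664,
    -3401573011426226733056, -10107407903014179045376, -848369593230590738432,
    -1209293854956752732160, 1609797049815958290432, -5165971178705108598784,
    -3515159946650766540800, -1189480954037199175680, 7528057567050492542976,
    -7409725525195390713856, -5041911671751029293056, 394227998083896049664, 2575059129314207334400,
    -6446030473931803066368, -2156154722067257753600, 3129700279835305181184,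
    2121044406647811735552, 8632193833695338037248, 18185342042370931163136]

theorem ckS : go 1464325603001156344 115292150460686 kS 9 3 (dsB ++ dsF) fsK [(dsB ++ dsS, csS)] = true := by
  decide +kernel

theorem ltS : ltAll 22 dsS = true := by decide +kernel

theorem taDS : DualSpec [(Tads, Tacs)] := by
  refine ⟨fun b hb => ?_, fun K M s p hM _ hl ht h => ?_⟩
  · rw [List.mem_singleton.1 hb]; decide +kernel
  · obtain ⟨E, h0, hp, hd, hc⟩ := h _ (List.mem_singleton.2 rfl)
    subst h0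
    exact Taspec K E s p hM hl ht hp hd hc

theorem semS {K L E F : ℕ → ℝ} (hM : 1 < F 0) (hF : Dfs K F 22 dsS) (hE : Dfs L E 10 dsX)
    (h0 : E 0 = F 0) (hz : ∀ i, i < 9 → E (i + 1) = F (23 + i)) :
    E 10 = F 0 - 9 / 8 ∧ E 11 = F 10 ∧ E 12 = F 11 ∧ E 13 = F 12 ∧ E 14 = F 13 ∧ E 15 = F 17 ∧
      E 16 = F 18 ∧ E 17 = F 19 ∧ E 18 = F 20 ∧ F 21 = 1 + (F 0 - 1) * E 19 ∧
      E 20 = π - 1 / 2 * (E 13 + E 18) ∧ E 21 = π - 1 / 2 * (E 12 + E 17) ∧
      E 22 = π - 1 / 2 * (E 11 + E 16) := by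
  have z1 : E 1 = F 23 := hz 0 (by norm_num)
  have z2 : E 2 = F 24 := hz 1 (by norm_num)
  have z3 : E 3 = F 25 := hz 2 (by norm_num)
  have z4 : E 4 = F 26 := hz 3 (by norm_num)
  have z5 : E 5 = F 27 := hz 4 (by norm_num)
  have z6 : E 6 = F 28 := hz 5 (by norm_num)
  have z7 : E 7 = F 29 := hz 6 (by norm_num)
  have z8 : E 8 = F 30 := hz 7 (by norm_num)
  have z9 : E 9 = F 31 := hz 8 (by norm_num)
  have hM1 : F 0 - 1 ≠ 0 := by linarith
  simp only [dsS, dsX, Dfs, Ex.ev, Nat.reduceAdd, h0, z1, z2, z3, z4, z5, z6, z7, z8, z9] at hF hE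
  push_cast at hF hE
  simp only [div_one] at hF hE
  obtain ⟨f22, f23, f24, f25, f26, f27, f28, f29, f30, f31, -⟩ := hF
  obtain ⟨e10, e11, e12, e13, e14, e15, e16, e17, e18, e19, e20, e21, e22, -⟩ := hE
  have y : E 10 = F 22 := e10.trans f22.symm
  refine ⟨e10, ?_, ?_, ?_, ?_, ?_, ?_, ?_, ?_, ?_, e20, e21, e22⟩
  · rw [e11, f23, y]; ring
  · rw [e12, f24, y]; ring
  · rw [e13, f25, y]; ring
  · rw [e14, f26, y]; ring
  · rw [e15, f27, y]; ring
  · rw [e16, f28, y]; ring
  · rw [e17, f29, y]; ring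
  · rw [e18, f30, y]; ring
  · have : E 19 = (F 21 - 1) * (F 0 - 1)⁻¹ := by rw [e19, f31, y]; ring
    rw [this]
    field_simp
    ring

theorem semZ {K F : ℕ → ℝ} (h : Pos K F csS) (i : ℕ) (hi : i < 9) : |F (23 + i)| ≤ 1 := by
  simp only [csS, Pos, Ex.ev] at h
  push_cast at h
  obtain ⟨a1, a2, a3, a4, a5, a6, a7, a8, a9, b1, b2, b3, b4, b5, b6, b7, b8, b9, -⟩ := h
  interval_cases i <;> exact abs_le.2 ⟨by linarith, by linarith⟩

theorem start {M : ℝ} (h1 : 127 / 100 ≤ M) (h2 : M ≤ 12702 / 10000) (hO : Ok M) :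
    ∃ z : Fin 9 → ℝ, (∀ i, |z i| ≤ 1) ∧ GG (M, z) = 0 ∧
      c M * RR (M, z) 192 - 2 * (M - 1) * RR (M, z) 191 = 0 := by
  have hM : 1 < M := by linarith
  obtain ⟨⟨p, s, hl, ht, hT⟩, hc⟩ := Tak0 taDS M h1 (by linarith)
  have mk : ∀ ds, ltAll 10 (dsB ++ ds) = true → ∃ E : ℕ → ℝ, (∀ i, i < 10 → E i = zr M s p i) ∧
      Dfs (Kof kS) E 10 (dsB ++ ds) ∧ Dfs (Kof kS) E 22 ds ∧ E 0 = M ∧
      (∀ i, 1 ≤ i → i ≤ 11 → E (9 + i) = p i) ∧ E 21 = s := fun ds hds =>
    have hd := runR_dfs (Kof kS) _ 10 (zr M s p) hds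
    have hE := fun i hi => runR_lt (Kof kS) (dsB ++ ds) 10 (zr M s p) i hi
    ⟨_, hE, hd, ((split_One ds).1 hd).2, zr_reg hl hE ((split_One ds).1 hd).1⟩
  obtain ⟨E, hE, hd, hF, h0, hp, h21⟩ := mk dsF ltA_One
  obtain ⟨hF0, hF1, hF2⟩ := splitF_One hF
  have hfix := (fix_One (K := Kof kS)).2 (semT_One hF2
    ((semI_One hM h0 hp h21 hl.e0 hl.e12 hl.e5 hl.e6 hl.e7 hF0 hF1).2 ⟨hl, ht⟩))
  obtain ⟨F, hFE, hdF, hS, f0, fp, f21⟩ := mk dsS (lt_One ltS)
  have hz := semZ (go_pos ckS (E := E) (by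
      rw [h0, abs_le]; push_cast; constructor <;> linarith)
    (fun i i1 i9 => by rw [hE i (by omega)]; exact zr_le hT i i1 i9) hd hfix
    (List.mem_singleton.2 rfl) (fun i hi => (hFE i (by omega)).trans (hE i (by omega)).symm) hdF)
  have e := splitA (RR_dfs (fun _ => 0) (M, fun i : Fin 9 => F (23 + i)))
  obtain ⟨a10, a11, a12, a13, a14, a15, a16, a17, a18, a19, a20, a21, a22⟩ :=
    semS (f0 ▸ hM) hS e.2.1 ((RR_zero _).trans f0.symm) fun i hi => RR_succ _ ⟨i, hi⟩
  have p1 := a11.trans (fp 1 (by norm_num) (by norm_num))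
  have p2 := a12.trans (fp 2 (by norm_num) (by norm_num))
  have p3 := a13.trans (fp 3 (by norm_num) (by norm_num))
  have p4 := a14.trans (fp 4 (by norm_num) (by norm_num))
  have p8 := a15.trans (fp 8 (by norm_num) (by norm_num))
  have p9 := a16.trans (fp 9 (by norm_num) (by norm_num))
  have p10 := a17.trans (fp 10 (by norm_num) (by norm_num))
  have p11 := a18.trans (fp 11 (by norm_num) (by norm_num))
  rw [f0] at a10
  rw [f0, f21] at a19
  obtain ⟨g1, g2⟩ := semG hM (RR_zero _) a10 p1 p2 p3 p4 p8 p9 p10 p11 a19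
    (by rw [a20, p3, p11]; linarith [hl.e5]) (by rw [a21, p2, p10]; linarith [hl.e6])
    (by rw [a22, p1, p9]; linarith [hl.e7]) hl ht e.2.2.1 e.2.2.2
  have hG : GG (M, fun i : Fin 9 => F (23 + i)) = 0 := funext fun k => g1 k k.2
  refine ⟨_, fun i => hz i i.2, hG, ?_⟩
  rw [hc p s hl ht hT]
  exact g2 (hO _ (fun i => hz i i.2) hG).2

end Pool.Agent.MP_e5b4ec_an.Na
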